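import Pool.Agent.TH980.IM.Fin3

set_option autoImplicit false

/-! Boundary values of the Green function of a fixed potential; changing the potential at one
site. -/

open MeasureTheory Filter Topology Set
open scoped ENNReal NNReal
open Pool.Agent.H12R2.And (Rz isUnit_sub sub_Rz im_inner norm_Rz_le diff_inner diff_Rz)
open Pool.Agent.TH980.IM Pool.Agent.TH980.IM.PR

namespace Pool.Agent.X187.IP

variable {d : ℕ}

/-- the boundary value of the Green function -/
noncomputable def bd (K : ℝ) (V : Sd d → ℝ) (E : ℝ) (x y : Sd d) : ℂ :=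
  limUnder atTop (fun k => GG K V (zk k E) x y)

/-- all boundary values exist at `E` -/
def Ok (K : ℝ) (V : Sd d → ℝ) (E : ℝ) : Prop :=
  ∀ x y : Sd d, Tendsto (fun k => GG K V (zk k E) x y) atTop (𝓝 (bd K V E x y))

instance cofinite_cg : (cofinite : Filter (Sd d)).IsCountablyGenerated := by
  have h : (cofinite : Filter (Sd d)) = ⨅ x : Sd d, 𝓟 {x}ᶜ := by
    apply le_antisymm
    · exact le_iInf fun x => le_principal_iff.2 (Set.finite_singleton x).compl_mem_cofinite
    · rw [le_cofinite_iff_compl_singleton_mem]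
      intro x
      exact mem_iInf_of_mem x (mem_principal_self _)
  rw [h]
  infer_instance

theorem ok_ae (K : ℝ) (V : Sd d → ℝ) : ∀ᵐ E : ℝ, Ok K V E := by
  unfold Ok
  rw [ae_all_iff]; intro x
  rw [ae_all_iff]; intro y
  filter_upwards [GG_boundary K V x y] with E hE
  exact tendsto_nhds_limUnder hE

theorem bd_symm {K : ℝ} {V : Sd d → ℝ} {E : ℝ} (h : Ok K V E) (x y : Sd d) :
    bd K V E x y = bd K V E y x :=
  tendsto_nhds_unique (h x y) ((h y x).congr fun k => GG_symm K V (zk_im_pos k E).ne' y x)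

theorem bd_shift (K : ℝ) (V : Sd d → ℝ) (E : ℝ) (x y : Sd d) :
    bd K V E x y = bd K (sh x V) E 0 (y - x) := by
  unfold bd
  congr 1
  funext k
  exact GG_shift K V (zk_im_pos k E).ne' x y

theorem bd_meas (K : ℝ) (x y : Sd d) :
    Measurable (fun q : (Sd d → ℝ) × ℝ => bd K q.1 q.2 x y) := by
  unfold bd
  exact (StronglyMeasurable.limUnder (l := atTop)
    (f := fun (k : ℕ) (q : (Sd d → ℝ) × ℝ) => GG K q.1 (zk k q.2) x y)
    fun k => (GG_meas K k x y).stronglyMeasurable).measurable

/-- the rank one formula for all matrix elements -/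
theorem GG_key (K : ℝ) (V : Sd d → ℝ) (p : Sd d) (a : ℝ) {z : ℂ} (hz : z.im ≠ 0) (j y : Sd d) :
    GG K (Function.update V p a) z j y = GG K V z j y -
      ((cl K a - cl K (V p) : ℝ) : ℂ) * GG K (Function.update V p a) z p y * GG K V z j p := by
  set κ : ℂ := ((cl K a - cl K (V p) : ℝ) : ℂ) with hκ
  set V' := Function.update V p a with hV'
  have hH : ∀ f : L2 d, HV K V' f = HV K V f + (κ * f p) • ee p := by
    intro f
    ext j
    change (HV K V' f) j = (HV K V f) j + (κ * f p) * (ee p : L2 d) j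
    rw [HV_apply, HV_apply, ee_apply]
    by_cases hj : j = p
    · subst hj
      rw [if_pos rfl, hV']
      simp only [Function.update_self]
      rw [hκ]
      push_cast
      ring
    · rw [if_neg hj, hV']
      simp only [Function.update_of_ne hj]
      ring
  set w' := Rz (HV K V') z (ee y) with hw'
  have h1 := sub_Rz (HV_sa K V') hz (ee y)
  rw [← hw', hH w'] at h1
  have h2 : w' + (κ * w' p) • Rz (HV K V) z (ee p) = Rz (HV K V) z (ee y) := by
    apply Rz_unique (HV_sa K V) hz
    rw [map_add, map_smul, smul_add]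
    have h3 := sub_Rz (HV_sa K V) hz (ee p)
    calc HV K V w' + (κ * w' p) • HV K V (Rz (HV K V) z (ee p)) -
          (z • w' + z • (κ * w' p) • Rz (HV K V) z (ee p))
        = (HV K V w' - z • w') + (κ * w' p) •
          (HV K V (Rz (HV K V) z (ee p)) - z • Rz (HV K V) z (ee p)) := by
          rw [smul_sub, smul_comm z]
          abel
      _ = (HV K V w' - z • w') + (κ * w' p) • ee p := by rw [h3]
      _ = ee y := by
          rw [← h1]
          abel
  have h4 := congrArg (fun f : L2 d => f j) h2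
  change w' j + (κ * w' p) * (Rz (HV K V) z (ee p)) j = (Rz (HV K V) z (ee y)) j at h4
  change w' j = (Rz (HV K V) z (ee y)) j - κ * w' p * (Rz (HV K V) z (ee p)) j
  rw [← h4]
  ring

theorem K1 {K : ℝ} {V : Sd d → ℝ} {p : Sd d} {a E : ℝ} (h : Ok K V E)
    (h' : Ok K (Function.update V p a) E) (j y : Sd d) :
    bd K (Function.update V p a) E j y = bd K V E j y -
      ((cl K a - cl K (V p) : ℝ) : ℂ) * bd K (Function.update V p a) E p y * bd K V E j p := by
  refine tendsto_nhds_unique (h' j y) ?_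
  refine ((h j y).sub (((h' p y).const_mul _).mul (h j p))).congr fun k => ?_
  exact (GG_key K V p a (zk_im_pos k E).ne' j y).symm

theorem K2 {K : ℝ} {V : Sd d → ℝ} {p : Sd d} {a E : ℝ} (h : Ok K V E)
    (h' : Ok K (Function.update V p a) E) (j y : Sd d) :
    bd K (Function.update V p a) E j y = bd K V E j y -
      ((cl K a - cl K (V p) : ℝ) : ℂ) * bd K (Function.update V p a) E j p * bd K V E p y := by
  rw [bd_symm h' j y, K1 h h' y j, bd_symm h y j, bd_symm h' p j, bd_symm h y p]

theorem GG_im_off (K : ℝ) (V : Sd d → ℝ) {z : ℂ} (hz : 0 < z.im) (x y : Sd d) :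
    |(GG K V z x y).im| ≤ ((GG K V z x x).im + (GG K V z y y).im) / 2 := by
  have hp := GG_polar K V hz.ne' x y
  have h1 := im_inner (HV_sa K V) hz.ne' (ee x + ee y : L2 d)
  have h2 := im_inner (HV_sa K V) hz.ne' (ee x - ee y : L2 d)
  have h3 : inner ℂ (ee x + ee y : L2 d) (Rz (HV K V) z (ee x + ee y)) +
      inner ℂ (ee x - ee y : L2 d) (Rz (HV K V) z (ee x - ee y)) =
      2 * (GG K V z x x + GG K V z y y) := by
    rw [GG_inner, GG_inner, map_add, map_sub, inner_add_left, inner_sub_left, inner_add_right,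
      inner_add_right, inner_sub_right, inner_sub_right]
    ring
  have h4 := congrArg Complex.im h3
  rw [Complex.add_im, h1, h2] at h4
  have h5 : (2 * (GG K V z x x + GG K V z y y)).im = 2 * ((GG K V z x x).im + (GG K V z y y).im) := by
    rw [show (2 : ℂ) = ((2 : ℝ) : ℂ) by norm_num, Complex.im_ofReal_mul, Complex.add_im]
  rw [h5] at h4
  have h6 := congrArg Complex.im hp
  rw [show (1 / 4 : ℂ) = ((1 / 4 : ℝ) : ℂ) by push_cast; norm_num, Complex.im_ofReal_mul,
    Complex.sub_im, h1, h2] at h6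
  rw [h6, abs_le]
  have p1 : 0 ≤ z.im * ‖Rz (HV K V) z (ee x + ee y)‖ ^ 2 := by positivity
  have p2 : 0 ≤ z.im * ‖Rz (HV K V) z (ee x - ee y)‖ ^ 2 := by positivity
  constructor <;> linarith

theorem bd_im_nonneg {K : ℝ} {V : Sd d → ℝ} {E : ℝ} (h : Ok K V E) (x : Sd d) :
    0 ≤ (bd K V E x x).im :=
  ge_of_tendsto ((Complex.continuous_im.tendsto _).comp (h x x))
    (Eventually.of_forall fun k => GG_im_nonneg K V (zk_im_pos k E) x)

theorem bd_im_off {K : ℝ} {V : Sd d → ℝ} {E : ℝ} (h : Ok K V E) (x y : Sd d) :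
    |(bd K V E x y).im| ≤ ((bd K V E x x).im + (bd K V E y y).im) / 2 := by
  have t : ∀ x y : Sd d, Tendsto (fun k => (GG K V (zk k E) x y).im) atTop
      (𝓝 (bd K V E x y).im) := fun x y => (Complex.continuous_im.tendsto _).comp (h x y)
  exact le_of_tendsto_of_tendsto (t x y).abs (((t x x).add (t y y)).div_const 2)
    (Eventually.of_forall fun k => GG_im_off K V (zk_im_pos k E) x y)

/-- the diagonal is real -/
def Re0 (K : ℝ) (V : Sd d → ℝ) (E : ℝ) : Prop := ∀ x : Sd d, (bd K V E x x).im = 0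

theorem re_up {K : ℝ} {V : Sd d → ℝ} {p : Sd d} {a E : ℝ} (h : Ok K V E)
    (h' : Ok K (Function.update V p a) E) (h0 : Re0 K V E) :
    Re0 K (Function.update V p a) E := by
  have hr : ∀ x y : Sd d, bd K V E x y = (((bd K V E x y).re : ℝ) : ℂ) := by
    intro x y
    have h1 := bd_im_off h x y
    rw [h0 x, h0 y] at h1
    have h2 : (bd K V E x y).im = 0 := by
      have := abs_nonneg (bd K V E x y).im
      apply abs_eq_zero.1
      linarith
    apply Complex.ext
    · simp
    · simp [h2]
  set κ : ℝ := cl K a - cl K (V p) with hκ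
  set g : Sd d → Sd d → ℝ := fun x y => (bd K V E x y).re with hg
  have hgc : ∀ x y, bd K V E x y = (g x y : ℂ) := hr
  have e1 : ∀ y, bd K (Function.update V p a) E p y * ((1 + κ * g p p : ℝ) : ℂ) = (g p y : ℂ) := by
    intro y
    have h1 := K1 h h' p y
    rw [hgc, hgc, ← hκ] at h1
    push_cast
    linear_combination h1
  have hne : (1 + κ * g p p : ℝ) ≠ 0 := by
    intro hz
    have h1 := e1 p
    rw [hz, Complex.ofReal_zero, mul_zero] at h1
    have h2 : g p p = 0 := by exact_mod_cast h1.symm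
    rw [h2] at hz
    simp at hz
  have e2 : ∀ y, bd K (Function.update V p a) E p y = ((g p y / (1 + κ * g p p) : ℝ) : ℂ) := by
    intro y
    rw [Complex.ofReal_div, eq_div_iff (by exact_mod_cast hne)]
    exact e1 y
  intro x
  rw [K1 h h' x x, e2, hgc, hgc]
  have : (g x x : ℂ) - (κ : ℂ) * ((g p x / (1 + κ * g p p) : ℝ) : ℂ) * (g x p : ℂ) =
      ((g x x - κ * (g p x / (1 + κ * g p p)) * g x p : ℝ) : ℂ) := by push_cast; ring
  rw [← hκ, this, Complex.ofReal_im]

/-- replace the potential on a finite set -/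
def pt (L : Finset (Sd d)) (a V : Sd d → ℝ) : Sd d → ℝ := fun x => if x ∈ L then a x else V x

theorem pt_empty (a V : Sd d → ℝ) : pt ∅ a V = V := by
  funext x; simp [pt]

theorem pt_insert (L : Finset (Sd d)) (p : Sd d) (a V : Sd d → ℝ) :
    pt (insert p L) a V = Function.update (pt L a V) p (a p) := by
  funext x
  unfold pt
  by_cases h : x = p
  · subst h; simp
  · rw [Function.update_of_ne h]
    simp [h]

theorem pt_back (L : Finset (Sd d)) (a V : Sd d → ℝ) : pt L V (pt L a V) = V := by
  funext x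
  unfold pt
  split_ifs <;> rfl

theorem pt_meas (L : Finset (Sd d)) (a : Sd d → ℝ) : Measurable (pt L a) := by
  unfold pt
  rw [measurable_pi_iff]
  intro x
  by_cases h : x ∈ L
  · simp only [h, if_true]; exact measurable_const
  · simp only [h, if_false]; exact measurable_pi_apply x

theorem re_pt1 (K : ℝ) (L : Finset (Sd d)) (a V : Sd d → ℝ) :
    ∀ᵐ E : ℝ, Re0 K V E → Re0 K (pt L a V) E := by
  induction L using Finset.induction_on with
  | empty => rw [pt_empty]; exact ae_of_all _ fun E h => h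
  | insert p L hp ih =>
    rw [pt_insert]
    filter_upwards [ih, ok_ae K (pt L a V), ok_ae K (Function.update (pt L a V) p (a p))]
      with E h1 h2 h3 h0
    exact re_up h2 h3 (h1 h0)

theorem re_pt (K : ℝ) (L : Finset (Sd d)) (a V : Sd d → ℝ) :
    ∀ᵐ E : ℝ, (Re0 K V E ↔ Re0 K (pt L a V) E) := by
  filter_upwards [re_pt1 K L a V, re_pt1 K L V (pt L a V)] with E h1 h2
  rw [pt_back] at h2
  exact ⟨h1, h2⟩

end Pool.Agent.X187.IP
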