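import Pool.Agent.X187.IP.Bd
import Pool.Agent.Helper203.H2Base

set_option autoImplicit false

/-! The circle and the line; uniform tightness of boundary values; identification of limits of
boundary values. -/

open MeasureTheory Filter Topology Set Metric
open scoped ENNReal NNReal Real
open Pool.Agent.H12R2.And (Rz isUnit_sub sub_Rz im_inner norm_Rz_le diff_inner diff_Rz)
open Pool.Agent.TH980.IM
open Pool.Agent.Helper203.Hardy (mT ae_mT_of_ae)

namespace Pool.Agent.X187.IP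

/-- from the angle to the energy -/
noncomputable def tau (θ : ℝ) : ℝ := Real.tan ((θ - π) / 2)

theorem meas_tau : Measurable tau := by
  have : tau = fun θ => Real.sin ((θ - π) / 2) / Real.cos ((θ - π) / 2) := by
    funext θ; rw [tau, Real.tan_eq_sin_div_cos]
  rw [this]
  fun_prop

theorem tau_inv {θ : ℝ} (hθ : θ ∈ Ioo (0 : ℝ) (2 * π)) : π + 2 * Real.arctan (tau θ) = θ := by
  unfold tau
  rw [Real.arctan_tan (by linarith [hθ.1]) (by linarith [hθ.2])]
  ring

theorem ae_Ioo : ∀ᵐ θ ∂mT, θ ∈ Ioo (0 : ℝ) (2 * π) := by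
  rw [mT]
  apply Measure.ae_smul_measure
  filter_upwards [ae_restrict_mem measurableSet_Ioc, ae_restrict_of_ae
    (Measure.ae_ne volume (2 * π))] with θ h1 h2
  exact ⟨h1.1, lt_of_le_of_ne h1.2 h2⟩

theorem aeE {p : ℝ → Prop} (h : ∀ᵐ θ ∂mT, p (tau θ)) : ∀ᵐ E : ℝ, p E := by
  have h1 : volume ({θ | ¬ p (tau θ)} ∩ Ioo 0 (2 * π)) = 0 := by
    have h2 := ae_iff.1 h
    rw [mT, Measure.smul_apply, smul_eq_mul, mul_eq_zero] at h2
    rcases h2 with h2 | h2
    · exact absurd (ENNReal.inv_eq_zero.1 h2) ENNReal.ofReal_ne_top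
    · rw [Measure.restrict_apply₀' measurableSet_Ioc.nullMeasurableSet] at h2
      exact measure_mono_null (inter_subset_inter_right _ Ioo_subset_Ioc_self) h2
  have himg : volume (tau '' ({θ | ¬ p (tau θ)} ∩ Ioo 0 (2 * π))) = 0 := by
    apply addHaar_image_eq_zero_of_differentiableOn_of_addHaar_eq_zero _ _ h1
    intro θ hθ
    apply DifferentiableAt.differentiableWithinAt
    have hc : Real.cos ((θ - π) / 2) ≠ 0 := by
      apply (Real.cos_pos_of_mem_Ioo _).ne'
      constructor <;> linarith [hθ.2.1, hθ.2.2]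
    have h1 : DifferentiableAt ℝ Real.tan ((θ - π) / 2) := (Real.differentiableAt_tan).2 hc
    exact DifferentiableAt.comp (f := fun θ : ℝ => (θ - π) / 2) θ h1 (by fun_prop)
  rw [ae_iff]
  refine measure_mono_null ?_ himg
  intro E hE
  have hθ1 := Real.arctan_lt_pi_div_two E
  have hθ2 := Real.neg_pi_div_two_lt_arctan E
  have e : tau (π + 2 * Real.arctan E) = E := by
    rw [tau, add_sub_cancel_left, mul_div_cancel_left₀ _ (by norm_num : (2 : ℝ) ≠ 0),
      Real.tan_arctan]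
  refine ⟨π + 2 * Real.arctan E, ⟨?_, ⟨by linarith, by linarith⟩⟩, e⟩
  show ¬ p (tau (π + 2 * Real.arctan E))
  rw [e]; exact hE

/-- a probability measure on the energies -/
noncomputable def mE : Measure ℝ := mT.map tau

instance : IsProbabilityMeasure mE := Measure.isProbabilityMeasure_map meas_tau.aemeasurable

theorem mE_ac : mE ≪ (volume : Measure ℝ) := by
  refine Measure.AbsolutelyContinuous.mk fun s hs h0 => ?_
  rw [mE, Measure.map_apply meas_tau hs]
  have himg : volume ((fun E : ℝ => π + 2 * Real.arctan E) '' s) = 0 := by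
    apply addHaar_image_eq_zero_of_differentiableOn_of_addHaar_eq_zero _ _ h0
    exact (((Real.differentiable_arctan).const_mul 2).const_add π).differentiableOn
  have h1 : ∀ᵐ θ ∂mT, θ ∉ ((fun E : ℝ => π + 2 * Real.arctan E) '' s) :=
    ae_mT_of_ae (measure_eq_zero_iff_ae_notMem.1 himg)
  have h2 : ∀ᵐ θ ∂mT, θ ∉ tau ⁻¹' s := by
    filter_upwards [h1, ae_Ioo] with θ e1 e2 e3
    exact e1 ⟨tau θ, e3, tau_inv e2⟩
  exact measure_eq_zero_iff_ae_notMem.2 h2

theorem ac_mE : (volume : Measure ℝ) ≪ mE := by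
  refine Measure.AbsolutelyContinuous.mk fun s hs h0 => ?_
  rw [mE, Measure.map_apply meas_tau hs] at h0
  have h1 : ∀ᵐ θ ∂mT, tau θ ∉ s := measure_eq_zero_iff_ae_notMem.1 h0
  exact measure_eq_zero_iff_ae_notMem.2 (aeE (p := fun E => E ∉ s) h1)

theorem aeT {p : ℝ → Prop} (h : ∀ᵐ E : ℝ, p E) : ∀ᵐ θ ∂mT, p (tau θ) :=
  ae_of_ae_map meas_tau.aemeasurable (mE_ac.ae_le h)

/-- radii -/
noncomputable def rr (k : ℕ) : ℝ := (1 - 1 / ((k : ℝ) + 1)) / (1 + 1 / ((k : ℝ) + 1))

theorem rr_eq (k : ℕ) : rr k = k / (k + 2) := by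
  unfold rr
  have : (k : ℝ) + 1 ≠ 0 := by positivity
  have : (k : ℝ) + 2 ≠ 0 := by positivity
  field_simp
  ring

theorem rr_nonneg (k : ℕ) : 0 ≤ rr k := by rw [rr_eq]; positivity

theorem rr_lt (k : ℕ) : rr k < 1 := by
  rw [rr_eq, div_lt_one (by positivity)]
  linarith

theorem rr_pos (k : ℕ) : 0 < rr (k + 1) := by rw [rr_eq]; positivity

theorem rr_tendsto : Tendsto rr atTop (𝓝[<] 1) := by
  rw [tendsto_nhdsWithin_iff]
  refine ⟨?_, Eventually.of_forall rr_lt⟩
  have h0 := tendsto_one_div_add_atTop_nhds_zero_nat (𝕜 := ℝ)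
  have h := ((tendsto_const_nhds (x := (1 : ℝ))).sub h0).div
    ((tendsto_const_nhds (x := (1 : ℝ))).add h0) (by norm_num)
  simp only [sub_zero, add_zero, div_one] at h
  exact h

theorem psi_tau {θ : ℝ} (hθ : θ ∈ Ioo (0 : ℝ) (2 * π)) (k : ℕ) :
    psi (circleMap 0 (rr k) θ) = zk k (tau θ) := by
  have h := circleMap_eq (tau θ) (rr k)
  rw [tau_inv hθ] at h
  rw [h, rr, psi_eq (by positivity)]
  rfl

theorem circ_mem (k : ℕ) (θ : ℝ) : circleMap 0 (rr k) θ ∈ ball (0 : ℂ) 1 :=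
  closedBall_subset_ball (rr_lt k) (circleMap_mem_closedBall _ (rr_nonneg k) _)

theorem tight_F {F : ℂ → ℂ} (hd : ∀ z : ℂ, 0 < z.im → DifferentiableAt ℂ F z)
    (him : ∀ z : ℂ, 0 < z.im → 0 ≤ (F z).im) (hF : ‖F Complex.I‖ ≤ 4) (k : ℕ) :
    (Continuous fun E => sq (F (zk k E) + Complex.I)) ∧
    ∫⁻ E, ‖sq (F (zk (k + 1) E) + Complex.I)‖ₑ ∂mE ≤ 6 := by
  have hc : ∀ m, Continuous fun E => sq (F (zk m E) + Complex.I) := by
    intro m
    rw [continuous_iff_continuousAt]
    intro E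
    have h1 := zk_im_pos m E
    have h2 : 0 < (F (zk m E) + Complex.I).im := by
      have := him _ h1
      simp only [Complex.add_im, Complex.I_im]
      linarith
    have h3 : ContinuousAt (fun E => F (zk m E) + Complex.I) E :=
      ((hd _ h1).continuousAt.comp (f := fun E : ℝ => zk m E) (continuous_zk m).continuousAt).add
        continuousAt_const
    exact ContinuousAt.comp (g := sq) (f := fun E => F (zk m E) + Complex.I)
      (sq_diff h2).continuousAt h3
  refine ⟨hc k, ?_⟩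
  rw [mE, lintegral_map (hc (k + 1)).measurable.enorm meas_tau]
  have e1 : ∫⁻ θ, ‖sq (F (zk (k + 1) (tau θ)) + Complex.I)‖ₑ ∂mT =
      ∫⁻ θ, ‖sq (F (psi (circleMap 0 (rr (k + 1)) θ)) + Complex.I)‖ₑ ∂mT := by
    apply lintegral_congr_ae
    filter_upwards [ae_Ioo] with θ hθ
    rw [psi_tau hθ]
  rw [e1, mT, lintegral_smul_measure]
  have hgd := gdiff hd him
  have hcont : Continuous (fun θ : ℝ => sq (F (psi (circleMap 0 (rr (k + 1)) θ)) + Complex.I)) :=
    hgd.continuousOn.comp_continuous (continuous_circleMap 0 _) fun θ => circ_mem _ θ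
  have h4 := avg hd him (rr_pos k) (rr_lt (k + 1))
  rw [intervalIntegral.integral_of_le (by positivity)] at h4
  have hint : Integrable (fun θ : ℝ => sq (F (psi (circleMap 0 (rr (k + 1)) θ)) + Complex.I))
      (volume.restrict (Ioc 0 (2 * π))) :=
    (hcont.integrableOn_Icc (a := 0) (b := 2 * π)).mono_set Ioc_subset_Icc_self
  rw [← ofReal_integral_norm_eq_lintegral_enorm hint]
  have hpsi0 : psi 0 = Complex.I := by simp [psi]
  have h5 : ‖sq (F (psi 0) + Complex.I)‖ ≤ 3 := by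
    rw [hpsi0]
    have hne : F Complex.I + Complex.I ≠ 0 := by
      intro h
      have h1 := him Complex.I (by simp)
      have := congrArg Complex.im h
      simp at this
      linarith
    have h6 := norm_sq_sq hne
    have h7 : ‖F Complex.I + Complex.I‖ ≤ 5 := by
      refine (norm_add_le _ _).trans ?_
      rw [Complex.norm_I]
      linarith
    nlinarith [norm_nonneg (sq (F Complex.I + Complex.I))]
  have h6 : ∫ θ in Ioc (0 : ℝ) (2 * π), ‖sq (F (psi (circleMap 0 (rr (k + 1)) θ)) + Complex.I)‖ ≤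
      2 * π * 6 := by
    refine h4.trans ?_
    gcongr
    linarith
  calc (ENNReal.ofReal (2 * π))⁻¹ • ENNReal.ofReal
        (∫ θ in Ioc (0 : ℝ) (2 * π), ‖sq (F (psi (circleMap 0 (rr (k + 1)) θ)) + Complex.I)‖)
      ≤ (ENNReal.ofReal (2 * π))⁻¹ * ENNReal.ofReal (2 * π * 6) := by
        rw [smul_eq_mul]
        gcongr
    _ = 6 := by
        have e6 : ENNReal.ofReal (2 * π * 6) = ENNReal.ofReal (2 * π) * 6 := by
          rw [ENNReal.ofReal_mul (p := 2 * π) (q := 6) (by positivity)]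
          congr 1
          norm_num
        rw [e6, ← mul_assoc, ENNReal.inv_mul_cancel
          Pool.Agent.Helper203.Hardy.ofReal_two_pi_ne_zero ENNReal.ofReal_ne_top, one_mul]

variable {d : ℕ}

theorem norm_ee (x : Sd d) : ‖(ee x : L2 d)‖ = 1 := by
  unfold ee
  rw [lp.norm_single (by norm_num)]
  simp

theorem tight_k (K : ℝ) (V : Sd d → ℝ) (x y : Sd d) (k : ℕ) :
    ∫⁻ E, ENNReal.ofReal (√‖GG K V (zk (k + 1) E) x y‖) ∂mE ≤ 12 := by
  have hsa := HV_sa K V
  have key : ∀ u : L2 d, ‖u‖ ≤ 2 → (Continuous fun E => sq (inner ℂ u (Rz (HV K V) (zk (k + 1) E) u) +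
      Complex.I)) ∧ ∫⁻ E, ‖sq (inner ℂ u (Rz (HV K V) (zk (k + 1) E) u) + Complex.I)‖ₑ ∂mE ≤ 6 := by
    intro u hu
    have h1 : ∀ m, _ := tight_F (F := fun z => inner ℂ u (Rz (HV K V) z u))
      (fun z hz => diff_inner hsa u hz.ne') (fun z hz => by
        rw [im_inner hsa hz.ne']; positivity) (by
        have h1 := norm_Rz_le hsa (z := Complex.I) (by simp) u
        rw [Complex.I_im, div_one] at h1
        refine (norm_inner_le_norm _ _).trans ?_
        nlinarith [norm_nonneg u])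
    exact ⟨(h1 (k + 1)).1, (h1 k).2⟩
  have n1 : ‖(ee x + ee y : L2 d)‖ ≤ 2 := by
    refine (norm_add_le _ _).trans ?_
    rw [norm_ee, norm_ee]; norm_num
  have n2 : ‖(ee x - ee y : L2 d)‖ ≤ 2 := by
    refine (norm_sub_le _ _).trans ?_
    rw [norm_ee, norm_ee]; norm_num
  obtain ⟨c1, k1⟩ := key _ n1
  obtain ⟨c2, k2⟩ := key _ n2
  calc ∫⁻ E, ENNReal.ofReal (√‖GG K V (zk (k + 1) E) x y‖) ∂mE
      ≤ ∫⁻ E, (‖sq (inner ℂ (ee x + ee y : L2 d) (Rz (HV K V) (zk (k + 1) E) (ee x + ee y)) +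
          Complex.I)‖ₑ +
        ‖sq (inner ℂ (ee x - ee y : L2 d) (Rz (HV K V) (zk (k + 1) E) (ee x - ee y)) +
          Complex.I)‖ₑ) ∂mE := by
        apply lintegral_mono
        intro E
        have hz := zk_im_pos (k + 1) E
        set A : ℂ := inner ℂ (ee x + ee y : L2 d) (Rz (HV K V) (zk (k + 1) E) (ee x + ee y)) +
          Complex.I with hA
        set B : ℂ := inner ℂ (ee x - ee y : L2 d) (Rz (HV K V) (zk (k + 1) E) (ee x - ee y)) +
          Complex.I with hB
        have hG : GG K V (zk (k + 1) E) x y = (1 / 4 : ℂ) * (A - B) := by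
          rw [GG_polar K V hz.ne', hA, hB]; ring
        have hpos : ∀ u : L2 d, inner ℂ u (Rz (HV K V) (zk (k + 1) E) u) + Complex.I ≠ 0 := by
          intro u h
          have h1 := congrArg Complex.im h
          rw [Complex.add_im, im_inner hsa hz.ne', Complex.I_im, Complex.zero_im] at h1
          have : 0 ≤ (zk (k + 1) E).im * ‖Rz (HV K V) (zk (k + 1) E) u‖ ^ 2 := by positivity
          linarith
        have hA2 : ‖sq A‖ ^ 2 = ‖A‖ := norm_sq_sq (hpos _)
        have hB2 : ‖sq B‖ ^ 2 = ‖B‖ := norm_sq_sq (hpos _)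
        have h1 : ‖GG K V (zk (k + 1) E) x y‖ ≤ (‖sq A‖ + ‖sq B‖) ^ 2 := by
          rw [hG, norm_mul]
          have h2 : ‖(1 / 4 : ℂ)‖ = 1 / 4 := by norm_num
          rw [h2]
          have h3 := norm_sub_le A B
          have h4 := norm_nonneg (sq A)
          have h5 := norm_nonneg (sq B)
          nlinarith [mul_nonneg h4 h5]
        have h2 : √‖GG K V (zk (k + 1) E) x y‖ ≤ ‖sq A‖ + ‖sq B‖ :=
          (Real.sqrt_le_left (by positivity)).2 h1
        calc ENNReal.ofReal (√‖GG K V (zk (k + 1) E) x y‖) ≤ ENNReal.ofReal (‖sq A‖ + ‖sq B‖) :=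
              ENNReal.ofReal_le_ofReal h2
          _ = ‖sq A‖ₑ + ‖sq B‖ₑ := by
              rw [ENNReal.ofReal_add (norm_nonneg _) (norm_nonneg _), ofReal_norm, ofReal_norm]
    _ ≤ 6 + 6 := by
        rw [lintegral_add_left c1.measurable.enorm]
        exact add_le_add k1 k2
    _ = 12 := by norm_num

/-- **Uniform tightness of the boundary values.** -/
theorem tight (K : ℝ) (V : Sd d → ℝ) (x y : Sd d) :
    ∫⁻ E, ENNReal.ofReal (√‖bd K V E x y‖) ∂mE ≤ 12 := by
  have h1 : ∫⁻ E, ENNReal.ofReal (√‖bd K V E x y‖) ∂mE =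
      ∫⁻ E, liminf (fun k => ENNReal.ofReal (√‖GG K V (zk (k + 1) E) x y‖)) atTop ∂mE := by
    apply lintegral_congr_ae
    filter_upwards [mE_ac.ae_le (ok_ae K V)] with E hE
    have h2 : Tendsto (fun k => ENNReal.ofReal (√‖GG K V (zk (k + 1) E) x y‖)) atTop
        (𝓝 (ENNReal.ofReal (√‖bd K V E x y‖))) := by
      have h3 := (hE x y).comp (tendsto_add_atTop_nat 1)
      exact (ENNReal.continuous_ofReal.tendsto _).comp
        ((Real.continuous_sqrt.tendsto _).comp h3.norm)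
    exact h2.liminf_eq.symm
  rw [h1]
  refine (lintegral_liminf_le fun k => ?_).trans ?_
  · exact (ENNReal.measurable_ofReal.comp
      (Real.continuous_sqrt.measurable.comp (GG_cont_E K V (k + 1) x y).measurable.norm))
  · apply liminf_le_of_le
    · isBoundedDefault
    · intro b hb
      obtain ⟨k, hk⟩ := hb.exists
      exact hk.trans (tight_k K V x y k)

/-- square means on circles are bounded by the square mean of the boundary values -/
theorem mean_le {f : ℂ → ℂ} (hf : DifferentiableOn ℂ f (ball 0 1)) {M : ℝ}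
    (hM : ∀ w ∈ ball (0 : ℂ) 1, ‖f w‖ ≤ M) {b : ℝ → ℂ}
    (hb : ∀ᵐ θ ∂mT, Tendsto (fun r : ℝ => f (circleMap 0 r θ)) (𝓝[<] 1) (𝓝 (b θ)))
    {r : ℝ} (h0 : 0 ≤ r) (h1 : r < 1) :
    ∫ θ, ‖f (circleMap 0 r θ)‖ ^ 2 ∂mT ≤ ∫ θ, ‖b θ‖ ^ 2 ∂mT := by
  have hM0 : 0 ≤ M := (norm_nonneg _).trans (hM 0 (by simp))
  have hcm : ∀ r : ℝ, 0 ≤ r → r < 1 → ∀ θ, circleMap 0 r θ ∈ ball (0 : ℂ) 1 := fun r h0 h1 θ =>
    closedBall_subset_ball h1 (circleMap_mem_closedBall _ h0 _)
  obtain ⟨F, hF, _⟩ := Pool.Agent.Helper203.Hardy.exists_ev hf (B := M ^ 2) (by positivity)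
    (fun r h0 h1 => by
      have hc : Continuous fun θ => f (circleMap 0 r θ) :=
        hf.continuousOn.comp_continuous (continuous_circleMap 0 _) (hcm r h0 h1)
      have hle : ∫ θ, ‖f (circleMap 0 r θ)‖ ^ 2 ∂mT ≤ ∫ _θ : ℝ, M ^ 2 ∂mT := by
        apply integral_mono_of_nonneg (ae_of_all _ fun θ => by simp only [Pi.zero_apply]; positivity)
          (integrable_const _)
        apply ae_of_all
        intro θ
        have := hM _ (hcm r h0 h1 θ)
        show ‖f (circleMap 0 r θ)‖ ^ 2 ≤ M ^ 2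
        gcongr
      simpa using hle)
  have e1 : ∀ θ, f (circleMap 0 r θ) = Pool.Agent.Helper203.Hardy.ev F (circleMap 0 r θ) :=
    fun θ => (hF _ (hcm r h0 h1 θ)).symm
  have hn := Pool.Agent.Helper203.Hardy.norm_sq_bdry F (M := M) (fun z hz => by
    rw [hF z hz]; exact hM z hz) (b := b) (by
      filter_upwards [hb] with θ hθ
      refine hθ.congr' ?_
      have : ∀ᶠ r : ℝ in 𝓝[<] 1, r ∈ Ioo (0 : ℝ) 1 := Ioo_mem_nhdsLT zero_lt_one
      filter_upwards [this] with r hr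
      exact (hF _ (hcm r hr.1.le hr.2 θ)).symm)
  rw [← hn]
  simp only [e1]
  exact Pool.Agent.Helper203.Hardy.ev_circle_le F h0 h1

/-- identification of limits of boundary values -/
theorem ident {f : ℕ → ℂ → ℂ} {g : ℂ → ℂ} (hf : ∀ k, DifferentiableOn ℂ (f k) (ball 0 1))
    (hg : DifferentiableOn ℂ g (ball 0 1)) (bf : ∀ k, ∀ w ∈ ball (0 : ℂ) 1, ‖f k w‖ ≤ 1)
    (bg : ∀ w ∈ ball (0 : ℂ) 1, ‖g w‖ ≤ 1)
    (hlim : ∀ w ∈ ball (0 : ℂ) 1, Tendsto (fun k => f k w) atTop (𝓝 (g w)))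
    {b : ℕ → ℝ → ℂ} {c φ : ℝ → ℂ}
    (hb : ∀ k, ∀ᵐ θ ∂mT, Tendsto (fun r : ℝ => f k (circleMap 0 r θ)) (𝓝[<] 1) (𝓝 (b k θ)))
    (hc : ∀ᵐ θ ∂mT, Tendsto (fun r : ℝ => g (circleMap 0 r θ)) (𝓝[<] 1) (𝓝 (c θ)))
    (hφ : ∀ᵐ θ ∂mT, Tendsto (fun k => b k θ) atTop (𝓝 (φ θ))) : ∀ᵐ θ ∂mT, φ θ = c θ := by
  have hcf : ∀ k m, Continuous fun θ => f k (circleMap 0 (rr m) θ) := fun k m =>
    (hf k).continuousOn.comp_continuous (continuous_circleMap 0 _) (circ_mem m)
  have hcg : ∀ m, Continuous fun θ => g (circleMap 0 (rr m) θ) := fun m =>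
    hg.continuousOn.comp_continuous (continuous_circleMap 0 _) (circ_mem m)
  have mb : ∀ k, AEStronglyMeasurable (b k) mT := fun k =>
    aestronglyMeasurable_of_tendsto_ae atTop (fun m => (hcf k m).aestronglyMeasurable)
      ((hb k).mono fun θ h => h.comp rr_tendsto)
  have mc : AEStronglyMeasurable c mT :=
    aestronglyMeasurable_of_tendsto_ae atTop (fun m => (hcg m).aestronglyMeasurable)
      (hc.mono fun θ h => h.comp rr_tendsto)
  have mφ : AEStronglyMeasurable φ mT := aestronglyMeasurable_of_tendsto_ae atTop mb hφ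
  have nb : ∀ k, ∀ᵐ θ ∂mT, ‖b k θ‖ ≤ 1 := fun k => by
    filter_upwards [hb k] with θ h
    exact le_of_tendsto (h.comp rr_tendsto).norm (Eventually.of_forall fun m => bf k _ (circ_mem m θ))
  have nc : ∀ᵐ θ ∂mT, ‖c θ‖ ≤ 1 := by
    filter_upwards [hc] with θ h
    exact le_of_tendsto (h.comp rr_tendsto).norm (Eventually.of_forall fun m => bg _ (circ_mem m θ))
  have nφ : ∀ᵐ θ ∂mT, ‖φ θ‖ ≤ 1 := by
    filter_upwards [hφ, ae_all_iff.2 nb] with θ h h2
    exact le_of_tendsto h.norm (Eventually.of_forall h2)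
  have bd2 : ∀ {p q : ℂ}, ‖p‖ ≤ 1 → ‖q‖ ≤ 1 → ‖‖p - q‖ ^ 2‖ ≤ 4 := by
    intro p q h1 h2
    rw [Real.norm_of_nonneg (by positivity)]
    have h3 : ‖p - q‖ ≤ 2 := (norm_sub_le _ _).trans (by linarith)
    nlinarith [norm_nonneg (p - q)]
  -- two members of the sequence
  have s1 : ∀ k j m, ∫ θ, ‖f k (circleMap 0 (rr m) θ) - f j (circleMap 0 (rr m) θ)‖ ^ 2 ∂mT ≤
      ∫ θ, ‖b k θ - b j θ‖ ^ 2 ∂mT := by
    intro k j m
    exact mean_le (f := fun w => f k w - f j w) (M := 2) ((hf k).sub (hf j))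
      (fun w hw => (norm_sub_le _ _).trans (by linarith [bf k w hw, bf j w hw]))
      (b := fun θ => b k θ - b j θ) (by
        filter_upwards [hb k, hb j] with θ h1 h2
        exact h1.sub h2) (rr_nonneg m) (rr_lt m)
  have s2 : ∀ k m, ∫ θ, ‖f k (circleMap 0 (rr m) θ) - g (circleMap 0 (rr m) θ)‖ ^ 2 ∂mT ≤
      ∫ θ, ‖b k θ - φ θ‖ ^ 2 ∂mT := by
    intro k m
    have t1 : Tendsto (fun j => ∫ θ, ‖f k (circleMap 0 (rr m) θ) -
        f j (circleMap 0 (rr m) θ)‖ ^ 2 ∂mT) atTop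
        (𝓝 (∫ θ, ‖f k (circleMap 0 (rr m) θ) - g (circleMap 0 (rr m) θ)‖ ^ 2 ∂mT)) := by
      apply tendsto_integral_of_dominated_convergence (fun _ => 4)
      · intro j
        exact (((hcf k m).sub (hcf j m)).norm.pow 2).aestronglyMeasurable
      · exact integrable_const _
      · intro j
        exact ae_of_all _ fun θ => bd2 (bf k _ (circ_mem m θ)) (bf j _ (circ_mem m θ))
      · exact ae_of_all _ fun θ => ((hlim _ (circ_mem m θ)).const_sub _).norm.pow 2
    have t2 : Tendsto (fun j => ∫ θ, ‖b k θ - b j θ‖ ^ 2 ∂mT) atTop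
        (𝓝 (∫ θ, ‖b k θ - φ θ‖ ^ 2 ∂mT)) := by
      apply tendsto_integral_of_dominated_convergence (fun _ => 4)
      · intro j
        exact (((mb k).sub (mb j)).norm.pow 2)
      · exact integrable_const _
      · intro j
        filter_upwards [nb k, nb j] with θ h1 h2
        exact bd2 h1 h2
      · filter_upwards [hφ] with θ h1
        exact (h1.const_sub _).norm.pow 2
    exact le_of_tendsto_of_tendsto t1 t2 (Eventually.of_forall fun j => s1 k j m)
  have s3 : ∀ k, ∫ θ, ‖b k θ - c θ‖ ^ 2 ∂mT ≤ ∫ θ, ‖b k θ - φ θ‖ ^ 2 ∂mT := by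
    intro k
    have t1 : Tendsto (fun m => ∫ θ, ‖f k (circleMap 0 (rr m) θ) -
        g (circleMap 0 (rr m) θ)‖ ^ 2 ∂mT) atTop (𝓝 (∫ θ, ‖b k θ - c θ‖ ^ 2 ∂mT)) := by
      apply tendsto_integral_of_dominated_convergence (fun _ => 4)
      · intro m
        exact (((hcf k m).sub (hcg m)).norm.pow 2).aestronglyMeasurable
      · exact integrable_const _
      · intro m
        exact ae_of_all _ fun θ => bd2 (bf k _ (circ_mem m θ)) (bg _ (circ_mem m θ))
      · filter_upwards [hb k, hc] with θ h1 h2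
        exact ((h1.comp rr_tendsto).sub (h2.comp rr_tendsto)).norm.pow 2
    exact le_of_tendsto t1 (Eventually.of_forall fun m => s2 k m)
  have s4 : ∫ θ, ‖φ θ - c θ‖ ^ 2 ∂mT ≤ 0 := by
    have t1 : Tendsto (fun k => ∫ θ, ‖b k θ - c θ‖ ^ 2 ∂mT) atTop
        (𝓝 (∫ θ, ‖φ θ - c θ‖ ^ 2 ∂mT)) := by
      apply tendsto_integral_of_dominated_convergence (fun _ => 4)
      · intro k
        exact (((mb k).sub mc).norm.pow 2)
      · exact integrable_const _
      · intro k
        filter_upwards [nb k, nc] with θ h1 h2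
        exact bd2 h1 h2
      · filter_upwards [hφ] with θ h1
        exact (h1.sub_const _).norm.pow 2
    have t2 : Tendsto (fun k => ∫ θ, ‖b k θ - φ θ‖ ^ 2 ∂mT) atTop (𝓝 (∫ _θ : ℝ, (0 : ℝ) ∂mT)) := by
      apply tendsto_integral_of_dominated_convergence (fun _ => 4)
      · intro k
        exact (((mb k).sub mφ).norm.pow 2)
      · exact integrable_const _
      · intro k
        filter_upwards [nb k, nφ] with θ h1 h2
        exact bd2 h1 h2
      · filter_upwards [hφ] with θ h1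
        have := (h1.sub_const (φ θ)).norm.pow 2
        simpa using this
    rw [integral_zero] at t2
    exact le_of_tendsto_of_tendsto t1 t2 (Eventually.of_forall s3)
  have hint : Integrable (fun θ => ‖φ θ - c θ‖ ^ 2) mT := by
    refine Integrable.of_bound (C := 4) ((mφ.sub mc).norm.pow 2) ?_
    filter_upwards [nφ, nc] with θ h1 h2
    exact bd2 h1 h2
  have h0 : (fun θ => ‖φ θ - c θ‖ ^ 2) =ᵐ[mT] 0 :=
    (integral_eq_zero_iff_of_nonneg (fun θ => by simp only [Pi.zero_apply]; positivity) hint).1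
      (le_antisymm s4 (integral_nonneg fun θ => by simp only [Pi.zero_apply]; positivity))
  filter_upwards [h0] with θ hθ
  have h1 : ‖φ θ - c θ‖ ^ 2 = 0 := hθ
  exact sub_eq_zero.1 (norm_eq_zero.1 (pow_eq_zero_iff two_ne_zero |>.1 h1))

theorem GG_cont_V (K : ℝ) {z : ℂ} (hz : 0 < z.im) (x y : Sd d) :
    Continuous (fun V : Sd d → ℝ => GG K V z x y) := by
  have h1 : (fun V : Sd d → ℝ => GG K V z x y) =
      fun V => inner ℂ (ee x) (Rz (HV K V) z (ee y)) := by
    funext V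
    exact GG_inner K V z x y
  rw [h1]
  exact (innerSL ℂ (ee x)).continuous.comp (Rz_cont K hz (ee y))

/-- the transformed Green function and its radial limits -/
theorem radial (K : ℝ) (V : Sd d → ℝ) (x : Sd d) :
    DifferentiableOn ℂ (fun w => (GG K V (psi w) x x + Complex.I)⁻¹) (ball 0 1) ∧
    (∀ w ∈ ball (0 : ℂ) 1, ‖(GG K V (psi w) x x + Complex.I)⁻¹‖ ≤ 1) ∧
    ∀ᵐ θ ∂mT, Tendsto (fun r : ℝ => (GG K V (psi (circleMap 0 r θ)) x x + Complex.I)⁻¹) (𝓝[<] 1)
      (𝓝 ((bd K V (tau θ) x x + Complex.I)⁻¹)) := by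
  have hsa := HV_sa K V
  have hdd : ∀ z : ℂ, 0 < z.im → DifferentiableAt ℂ (fun z => GG K V z x x) z := fun z hz => by
    have h1 : (fun z => GG K V z x x) = fun z => inner ℂ (ee x) (Rz (HV K V) z (ee x)) := by
      funext z
      exact GG_inner K V z x x
    rw [h1]
    exact diff_inner hsa _ hz.ne'
  have him : ∀ z : ℂ, 0 < z.im → 0 ≤ (GG K V z x x).im := fun z hz => GG_im_nonneg K V hz x
  have h1 := bdiff (F := fun z => GG K V z x x) hdd him
  have h2 := bbound (F := fun z => GG K V z x x) him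
  refine ⟨h1, h2, ?_⟩
  have h3 := ae_mT_of_ae (Pool.Agent.Helper203.Hardy.fatou h1 h2)
  filter_upwards [h3, ae_Ioo, aeT (ok_ae K V)] with θ ⟨l, hl⟩ h4 h5
  have h6 := hl.comp rr_tendsto
  have h7 : Tendsto (fun k => (GG K V (zk k (tau θ)) x x + Complex.I)⁻¹) atTop
      (𝓝 ((bd K V (tau θ) x x + Complex.I)⁻¹)) := by
    refine ((h5 x x).add_const _).inv₀ ?_
    intro h
    have h8 := congrArg Complex.im h
    rw [Complex.add_im, Complex.I_im, Complex.zero_im] at h8
    linarith [bd_im_nonneg h5 x]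
  have h8 : l = (bd K V (tau θ) x x + Complex.I)⁻¹ := by
    refine tendsto_nhds_unique h6 (h7.congr fun k => ?_)
    simp only [Function.comp_apply]
    rw [psi_tau h4]
  rw [← h8]
  exact hl

/-- **Boundary values of a limit of potentials.** -/
theorem bd_limit (K : ℝ) {W : ℕ → Sd d → ℝ} {V : Sd d → ℝ} (hW : Tendsto W atTop (𝓝 V)) (x : Sd d)
    (h : ∀ᵐ E : ℝ, ∃ l : ℂ, Tendsto (fun k => bd K (W k) E x x) atTop (𝓝 l)) :
    ∀ᵐ E : ℝ, Tendsto (fun k => bd K (W k) E x x) atTop (𝓝 (bd K V E x x)) := by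
  have hne : ∀ {z : ℂ}, 0 ≤ z.im → z + Complex.I ≠ 0 := by
    intro z hz h0
    have h8 := congrArg Complex.im h0
    rw [Complex.add_im, Complex.I_im, Complex.zero_im] at h8
    linarith
  have hok : ∀ᵐ E : ℝ, ∀ k, Ok K (W k) E := ae_all_iff.2 fun k => ok_ae K (W k)
  have key := ident (f := fun k w => (GG K (W k) (psi w) x x + Complex.I)⁻¹)
    (g := fun w => (GG K V (psi w) x x + Complex.I)⁻¹) (fun k => (radial K (W k) x).1)
    (radial K V x).1 (fun k => (radial K (W k) x).2.1) (radial K V x).2.1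
    (fun w hw => by
      have h1 := (GG_cont_V K (psi_im hw) x x).tendsto V
      refine ((h1.comp hW).add_const _).inv₀ ?_
      exact hne (GG_im_nonneg K V (psi_im hw) x))
    (b := fun k θ => (bd K (W k) (tau θ) x x + Complex.I)⁻¹)
    (c := fun θ => (bd K V (tau θ) x x + Complex.I)⁻¹)
    (φ := fun θ => (limUnder atTop (fun k => bd K (W k) (tau θ) x x) + Complex.I)⁻¹)
    (fun k => (radial K (W k) x).2.2) (radial K V x).2.2 (by
      filter_upwards [aeT h, aeT hok] with θ h1 h2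
      have h3 := tendsto_nhds_limUnder h1
      refine (h3.add_const _).inv₀ (hne ?_)
      exact ge_of_tendsto ((Complex.continuous_im.tendsto _).comp h3)
        (Eventually.of_forall fun k => bd_im_nonneg (h2 k) x))
  have key2 := aeE (p := fun E => (limUnder atTop (fun k => bd K (W k) E x x) + Complex.I)⁻¹ =
    (bd K V E x x + Complex.I)⁻¹) key
  filter_upwards [key2, h] with E h1 h2
  have h3 := inv_injective h1
  have h4 := add_right_cancel h3
  rw [← h4]
  exact tendsto_nhds_limUnder h2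

end Pool.Agent.X187.IP
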