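import Pool.Agent.X187.IP.Rec

set_option autoImplicit false

/-! The deterministic limit. -/

open MeasureTheory Filter Topology Set
open scoped ENNReal NNReal Real
open Pool.Agent.TH980.IM Pool.Agent.TH980.IM.PR
open Pool.Agent.H12R2.And (Rz isUnit_sub sub_Rz im_inner norm_Rz_le diff_inner diff_Rz)

namespace Pool.Agent.X187.IP

variable {d : ℕ}

theorem seq_lim {u : ℕ → ℂ} {θ : ℕ → ℝ} (hθ0 : ∀ k, 0 < θ k) (hθ : ∀ k, θ (k + 1) ≤ θ k / 2)
    {k0 : ℕ} (h : ∀ k, k0 ≤ k → ‖u (k + 1) - u k‖ ≤ θ k / 2) :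
    ∃ l, Tendsto u atTop (𝓝 l) ∧ ∀ k, k0 ≤ k → ‖l - u k‖ ≤ θ k := by
  have h1 : ∀ k, k0 ≤ k → ∀ j, ‖u (k + j) - u k‖ ≤ θ k - θ (k + j) := by
    intro k hk j
    induction j with
    | zero => simp
    | succ j ih =>
      have h2 := h (k + j) (by omega)
      have h3 := hθ (k + j)
      have h4 : u (k + (j + 1)) - u k = (u (k + j + 1) - u (k + j)) + (u (k + j) - u k) := by
        have : k + (j + 1) = k + j + 1 := rfl
        rw [this]
        ring
      rw [h4]
      refine (norm_add_le _ _).trans ?_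
      have : k + (j + 1) = k + j + 1 := rfl
      rw [this]
      linarith
  have hθl : Tendsto θ atTop (𝓝 0) := by
    have h2 : ∀ k, θ k ≤ θ 0 * (1 / 2) ^ k := by
      intro k
      induction k with
      | zero => simp
      | succ k ih =>
        have := hθ k
        rw [pow_succ]
        linarith
    refine squeeze_zero (fun k => (hθ0 k).le) h2 ?_
    have := (tendsto_pow_atTop_nhds_zero_of_lt_one (r := (1 / 2 : ℝ)) (by norm_num)
      (by norm_num)).const_mul (θ 0)
    simpa using this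
  have hc : CauchySeq u := by
    rw [Metric.cauchySeq_iff']
    intro ε hε
    obtain ⟨N, hN1, hN2⟩ := ((hθl.eventually (gt_mem_nhds hε)).and
      (eventually_ge_atTop k0)).exists
    refine ⟨N, fun n hn => ?_⟩
    obtain ⟨j, rfl⟩ := Nat.exists_eq_add_of_le hn
    rw [dist_eq_norm]
    have := h1 N hN2 j
    have := hθ0 (N + j)
    linarith
  obtain ⟨l, hl⟩ := cauchySeq_tendsto_of_complete hc
  refine ⟨l, hl, fun k hk => ?_⟩
  have h4 : Tendsto (fun j => u (k + j)) atTop (𝓝 l) := by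
    have := (tendsto_add_atTop_iff_nat k).2 hl
    refine this.congr fun j => ?_
    rw [Nat.add_comm]
  have h5 : Tendsto (fun j => ‖u (k + j) - u k‖) atTop (𝓝 ‖l - u k‖) := (h4.sub_const _).norm
  exact le_of_tendsto h5 (Eventually.of_forall fun j => (h1 k hk j).trans
    (by linarith [hθ0 (k + j)]))

theorem det {K : ℝ} {A : ℕ → Finset ℝ} {S : Set ℝ} {F : ℕ → Finset (Sd d)} {z : ℕ → Sd d}
    {m : ℕ → ℕ} {Ex : ℕ → Finset (Sd d)} (hm : Monotone Ex) (hex : ∀ x, ∃ n, x ∈ Ex n)
    (hgrow : ∀ k, 2 * m k + 1 ≤ m (k + 1)) {V W : Sd d → ℝ}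
    (hgood : ∀ᵐ E : ℝ, ∀ᶠ k in atTop,
      (V, E) ∉ Er K (A k) (LL F (hist z k)) (F k) (Ex (m k)) (1 / (4 * ((m k : ℝ) + 1))) (z k) ∧
      (V, E) ∉ Po K (A k) S (LL F (hist z k)) (Ex (m k)) (1 / ((m k : ℝ) + 1)))
    (hneg : ∀ᵐ E : ℝ, E ∉ S → Re0 K V E)
    (hA : ∀ k, ∀ x ∈ LL F (hist z (k + 1)), W x ∈ A k)
    (hoff : ∀ x, (∀ k, x ∉ LL F (hist z k)) → W x = V x) :
    ∀ᵐ E : ℝ, (E ∈ S ↔ ¬ Re0 K W E) := by
  set L : ℕ → Finset (Sd d) := fun k => LL F (hist z k) with hL
  have hLs : ∀ k, L (k + 1) = L k ∪ (F k).image (fun c => z k + c) := by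
    intro k
    show LL F (z k :: hist z k) = _
    rw [LL, hist_length]
  have hLmono : Monotone L := monotone_nat_of_le_succ fun k => by
    rw [hLs]; exact Finset.subset_union_left
  set U : ℕ → Sd d → ℝ := fun k => pt (L k) W V with hU
  have hUlim : Tendsto U atTop (𝓝 W) := by
    rw [tendsto_pi_nhds]
    intro x
    by_cases hx : ∃ k, x ∈ L k
    · obtain ⟨k, hk⟩ := hx
      refine tendsto_const_nhds.congr' ?_
      filter_upwards [eventually_ge_atTop k] with j hj
      simp only [hU, pt]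
      rw [if_pos (hLmono hj hk)]
    · push Not at hx
      refine tendsto_const_nhds.congr fun j => ?_
      simp only [hU, pt]
      rw [if_neg (hx j), hoff x hx]
  set θ : ℕ → ℝ := fun k => 1 / (2 * ((m k : ℝ) + 1)) with hθdef
  have hθ0 : ∀ k, 0 < θ k := fun k => by positivity
  have hθ2 : ∀ k, θ k / 2 = 1 / (4 * ((m k : ℝ) + 1)) := fun k => by
    simp only [hθdef]
    rw [div_div]
    congr 1
    ring
  have hθ : ∀ k, θ (k + 1) ≤ θ k / 2 := by
    intro k
    rw [hθ2]
    apply one_div_le_one_div_of_le (by positivity)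
    have : (2 * m k + 1 : ℝ) ≤ m (k + 1) := by exact_mod_cast hgrow k
    linarith
  have hmk : ∀ k, k ≤ m k := by
    intro k
    induction k with
    | zero => exact Nat.zero_le _
    | succ k ih => have := hgrow k; omega
  have hmmono : Monotone m := monotone_nat_of_le_succ fun k => by have := hgrow k; omega
  -- the increments
  have hinc : ∀ {E : ℝ} {k : ℕ}, (V, E) ∉ Er K (A k) (LL F (hist z k)) (F k) (Ex (m k))
      (1 / (4 * ((m k : ℝ) + 1))) (z k) → ∀ x ∈ Ex (m k),
      ‖bd K (U (k + 1)) E x x - bd K (U k) E x x‖ ≤ θ k / 2 := by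
    intro E k hE x hx
    by_contra hcon
    push Not at hcon
    apply hE
    refine ⟨W, fun y hy => hA k y ?_, x, hx, ?_⟩
    · have : y ∈ L (k + 1) := by rw [hLs]; exact hy
      exact this
    · rw [hθ2] at hcon
      have e : U (k + 1) = pt (LL F (hist z k) ∪ (F k).image (fun c => z k + c)) W V := by
        simp only [hU]
        rw [hLs]
      rw [e] at hcon
      exact hcon.le
  have hex1 : ∀ x, ∀ᵐ E : ℝ, ∃ l : ℂ, Tendsto (fun k => bd K (U k) E x x) atTop (𝓝 l) := by
    intro x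
    filter_upwards [hgood] with E hE
    obtain ⟨k1, hk1⟩ := eventually_atTop.1 hE
    obtain ⟨n, hn⟩ := hex x
    obtain ⟨l, hl, _⟩ := seq_lim (u := fun k => bd K (U k) E x x) (k0 := max k1 n) hθ0 hθ
      (fun k hk => hinc (hk1 k ((le_max_left _ _).trans hk)).1 x
        (hm ((le_max_right _ _).trans (hk.trans (hmk k))) hn))
    exact ⟨l, hl⟩
  have hlim : ∀ᵐ E : ℝ, ∀ x, Tendsto (fun k => bd K (U k) E x x) atTop (𝓝 (bd K W E x x)) :=
    ae_all_iff.2 fun x => bd_limit K hUlim x (hex1 x)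
  have hre : ∀ᵐ E : ℝ, ∀ k, (Re0 K V E ↔ Re0 K (U k) E) := ae_all_iff.2 fun k => re_pt K (L k) W V
  filter_upwards [hgood, hneg, hlim, hre] with E e1 e2 e3 e4
  constructor
  · intro hES h0
    obtain ⟨k1, hk1⟩ := eventually_atTop.1 e1
    have hpo := (hk1 k1 le_rfl).2
    obtain ⟨x, hx, hx2⟩ : ∃ x ∈ Ex (m k1), 1 / ((m k1 : ℝ) + 1) ≤ (bd K (U k1) E x x).im := by
      by_contra hcon
      push Not at hcon
      exact hpo ⟨hES, W, fun y hy => hA k1 y (hLmono (Nat.le_succ k1) hy), hcon⟩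
    obtain ⟨l, hl, hl2⟩ := seq_lim (u := fun k => bd K (U k) E x x) (k0 := k1) hθ0 hθ
      (fun k hk => hinc (hk1 k hk).1 x (hm (hmmono hk) hx))
    have h1 : l = bd K W E x x := tendsto_nhds_unique hl (e3 x)
    have h2 := hl2 k1 le_rfl
    have h3 : |l.im - (bd K (U k1) E x x).im| ≤ θ k1 := by
      rw [← Complex.sub_im]
      exact (Complex.abs_im_le_norm _).trans h2
    have h4 : l.im = 0 := by rw [h1]; exact h0 x
    rw [h4, zero_sub, abs_neg] at h3
    have h5 := (le_abs_self _).trans h3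
    have h6 : 1 / ((m k1 : ℝ) + 1) = 2 * θ k1 := by
      simp only [hθdef]
      field_simp
    have := hθ0 k1
    linarith
  · intro h0
    by_contra hES
    apply h0
    have h1 := e2 hES
    intro x
    have h2 : ∀ k, (bd K (U k) E x x).im = 0 := fun k => (e4 k).1 h1 x
    have h3 : Tendsto (fun k => (bd K (U k) E x x).im) atTop (𝓝 (bd K W E x x).im) :=
      (Complex.continuous_im.tendsto _).comp (e3 x)
    simp only [h2] at h3
    exact (tendsto_nhds_unique h3 tendsto_const_nhds)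

/-- `S` is the essential support of the absolutely continuous spectrum -/
theorem acs {K : ℝ} {V : Sd d → ℝ} {S : Set ℝ} (h : ∀ᵐ E : ℝ, (E ∈ S ↔ ¬ Re0 K V E))
    {B : Set ℝ} (hB : MeasurableSet B) :
    (∀ (φ : L2 d) (μ : Measure ℝ), IsFiniteMeasure μ →
      (∀ z : ℂ, z.im ≠ 0 → (∫ x, ((x : ℂ) - z)⁻¹ ∂μ) = inner ℂ φ (Rz (HV K V) z φ)) →
      (μ.restrict B) ⟂ₘ volume) ↔ volume (B ∩ S) = 0 := by
  constructor
  · intro hall
    by_contra hne
    obtain ⟨x, hx⟩ : ∃ x : Sd d, volume (B ∩ {E | 0 < (bd K V E x x).im}) ≠ 0 := by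
      by_contra hcon
      push Not at hcon
      apply hne
      have h1 : volume (⋃ x : Sd d, B ∩ {E | 0 < (bd K V E x x).im}) = 0 :=
        measure_iUnion_null hcon
      refine measure_mono_null_ae ?_ h1
      filter_upwards [h, ok_ae K V] with E e1 e2 e3
      have e4 := e1.1 e3.2
      unfold Re0 at e4
      push Not at e4
      obtain ⟨x, hx⟩ := e4
      have : E ∈ ⋃ x : Sd d, B ∩ {E | 0 < (bd K V E x x).im} :=
        mem_iUnion.2 ⟨x, e3.1, lt_of_le_of_ne (bd_im_nonneg e2 x) (Ne.symm hx)⟩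
      exact this
    refine sees (u := ee x) ?_ hB hx (fun z hz => BT_spm (HV_sa K V) (ee x) hz)
      (hall (ee x) (spm (HV_sa K V) (ee x)) inferInstance
        (fun z hz => BT_spm (HV_sa K V) (ee x) hz))
    filter_upwards [ok_ae K V] with E e1 e2 e3
    have h1 : Tendsto (fun k => (GG K V (zk k E) x x).im) atTop (𝓝 (bd K V E x x).im) :=
      (Complex.continuous_im.tendsto _).comp (e1 x x)
    have h2 : Tendsto (fun k => (GG K V (zk k E) x x).im) atTop (𝓝 0) := by
      have h3 := e3.pow 2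
      simp only [ne_eq, OfNat.ofNat_ne_zero, not_false_eq_true, zero_pow] at h3
      refine h3.congr fun k => ?_
      rw [qn_sq (HV_sa K V) (zk_im_pos k E), GG_inner]
    have h3 := tendsto_nhds_unique h1 h2
    have e2' : 0 < (bd K V E x x).im := e2
    linarith
  · intro h0 φ μ hμf hμ
    refine no_ac (h := fun w q => bd K q.1 q.2 0 w) ?_ hB ?_ hμ
    · filter_upwards [ok_ae K V] with E e1 x y
      have := e1 x y
      rw [bd_shift K V E x y] at this
      exact this
    · have h4 : ∀ᵐ E : ℝ, E ∉ B ∩ S := by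
        rw [ae_iff]
        simpa only [not_not] using! h0
      filter_upwards [ae_restrict_of_ae h, ae_restrict_of_ae h4, ae_restrict_mem hB]
        with E e1 e2 e3 x
      have e4 : Re0 K V E := by
        by_contra hcon
        exact e2 ⟨e3, e1.2 hcon⟩
      have e5 := e4 x
      rw [bd_shift K V E x x, sub_self] at e5
      exact e5.le

end Pool.Agent.X187.IP
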