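import Pool.Agent.X187.IP.Det

set_option autoImplicit false

/-! The main theorem. -/

open MeasureTheory Filter Topology Set
open scoped ENNReal NNReal Real
open Pool.Agent.TH980.IM Pool.Agent.TH980.IM.PR
open Pool.Agent.H12R2.And (Rz isUnit_sub sub_Rz im_inner norm_Rz_le diff_inner diff_Rz)

namespace Pool.Agent.X187.IP

variable {d : ℕ}

theorem HV_congr {K K' : ℝ} {V : Sd d → ℝ} (h : ∀ x, cl K (V x) = cl K' (V x)) :
    HV K V = HV K' V := by
  apply ContinuousLinearMap.ext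
  intro u
  apply lp.ext
  funext j
  rw [HV_apply, HV_apply, h]

theorem bd_congr {K K' : ℝ} {V : Sd d → ℝ} (h : ∀ x, cl K (V x) = cl K' (V x)) (E : ℝ)
    (x y : Sd d) : bd K V E x y = bd K' V E x y := by
  unfold bd GG
  rw [HV_congr h]

/-- `S` is the essential support of the absolutely continuous spectrum of `H` -/
def ACS (H : L2 d →L[ℂ] L2 d) (S : Set ℝ) : Prop :=
  ∀ B : Set ℝ, MeasurableSet B → ((∀ (φ : L2 d) (μ : Measure ℝ), IsFiniteMeasure μ →
      (∀ z : ℂ, z.im ≠ 0 → (∫ x, ((x : ℂ) - z)⁻¹ ∂μ) = inner ℂ φ (Rz H z φ)) →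
      (μ.restrict B) ⟂ₘ volume) ↔ volume (B ∩ S) = 0)

theorem isA_HV {K : ℝ} {V : Sd d → ℝ} (h : ∀ x, |V x| ≤ K) : IsA V (HV K V) := by
  intro u j
  rw [HV_apply, cl_eq (h j)]
  congr 1
  rw [← Finset.sum_neg_distrib]
  refine Finset.sum_congr rfl fun i _ => ?_
  ring

theorem isA_unique {V : Sd d → ℝ} {H H' : L2 d →L[ℂ] L2 d} (h : IsA V H) (h' : IsA V H') :
    H' = H := by
  apply ContinuousLinearMap.ext
  intro u
  apply lp.ext
  funext j
  exact (h' u j).trans (h u j).symm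

theorem main (hd : 1 ≤ d) (ν : Measure ℝ) [IsProbabilityMeasure ν]
    (hb : ∃ K : ℝ, ∀ᵐ v ∂ν, |v| ≤ K) (hν : ∀ r : ℝ, ν {r} ≠ 1) :
    ∃ S : Set ℝ, MeasurableSet S ∧
      (∀ᵐ ω ∂(PP (Sd d) ν), ∃ H : L2 d →L[ℂ] L2 d, IsA ω H ∧
        (∀ H' : L2 d →L[ℂ] L2 d, IsA ω H' → H' = H) ∧ ACS H S) ∧
      ∀ (F : ℕ → Finset (Sd d)) (A : ℕ → Finset ℝ), (∃ M : ℝ, ∀ k, ∀ a ∈ A k, |a| ≤ M) →
        ∃ R : List (Sd d) → Finset (Sd d), ∀ z : ℕ → Sd d,
          (∀ k, z k ∉ R ((List.range k).map z)) →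
          ∀ᵐ ω ∂(PP (Sd d) ν), ∀ W : Sd d → ℝ,
            (∀ k, ∀ c ∈ F k, W (z k + c) ∈ A k) →
            (∀ x, (∀ k, ∀ c ∈ F k, x ≠ z k + c) → W x = ω x) →
            ∃ H : L2 d →L[ℂ] L2 d, IsA W H ∧
              (∀ H' : L2 d →L[ℂ] L2 d, IsA W H' → H' = H) ∧ ACS H S := by
  classical
  obtain ⟨K0, hK0⟩ := hb
  obtain ⟨h, S, hS, hmeas, hcore⟩ := all_core (d := d) hd hK0 hν
  have hbd : ∀ᵐ V ∂(PP (Sd d) ν), ∀ x, |V x| ≤ K0 := by
    rw [ae_all_iff]
    intro x
    exact (measurePreserving_eval_infinitePi (fun _ : Sd d => ν) x).quasiMeasurePreserving.ae hK0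
  -- the positivity set
  have hiff0 : ∀ᵐ V ∂(PP (Sd d) ν), ∀ᵐ E : ℝ, (E ∈ S ↔ ¬ Re0 K0 V E) := by
    filter_upwards [hcore] with V ⟨c1, c2, c3⟩
    filter_upwards [c1, c2, c3, ok_ae K0 V] with E e1 e2 e3 e4
    have e5 : ∀ x, bd K0 V E x x = h 0 (sh x V, E) := by
      intro x
      have h1 := e1 x x
      rw [sub_self] at h1
      exact tendsto_nhds_unique (e4 x x) h1
    constructor
    · intro hES h0
      obtain ⟨j, hj⟩ := e3 hES ⟨0, hd⟩ 0 1 (fun _ => 0)
        ⟨fun a b _ => Subsingleton.elim a b, fun i => Or.inl rfl⟩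
      have h1 := hj (fun _ => 1)
      have h2 : QF (MM h (fun _ : Fin 1 => (0 : Sd d)) (V, E)) (fun _ => 1) =
          (h 0 (sh 0 V, E)).im := by
        simp [QF, MM]
      rw [h2, ← e5, h0 0] at h1
      have h3 : (0 : ℝ) < 1 / ((j : ℝ) + 1) * ∑ _i : Fin 1, ‖(1 : ℂ)‖ ^ 2 := by
        simp
        positivity
      linarith
    · intro h0
      by_contra hES
      apply h0
      intro x
      refine le_antisymm ?_ (bd_im_nonneg e4 x)
      rw [e5]
      exact e2 hES x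
  -- other clippings
  have hiff : ∀ K : ℝ, K0 ≤ K → ∀ᵐ V ∂(PP (Sd d) ν), ∀ᵐ E : ℝ, (E ∈ S ↔ ¬ Re0 K V E) := by
    intro K hK
    filter_upwards [hiff0, hbd] with V h1 h2
    filter_upwards [h1] with E h3
    have h4 : ∀ x, cl K (V x) = cl K0 (V x) := fun x => by
      rw [cl_eq (h2 x), cl_eq ((h2 x).trans hK)]
    have h5 : Re0 K V E ↔ Re0 K0 V E := by
      unfold Re0
      exact forall_congr' fun x => by rw [bd_congr h4]
    rw [h3, h5]
  refine ⟨S, hS, ?_, ?_⟩
  · filter_upwards [hiff0, hbd] with V h1 h2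
    exact ⟨HV K0 V, isA_HV h2, fun H' hH' => isA_unique (isA_HV h2) hH',
      fun B hB => acs h1 hB⟩
  · rintro F A ⟨M, hM⟩
    set K : ℝ := max K0 M with hKdef
    have hKK0 : K0 ≤ K := le_max_left _ _
    have hKν : ∀ᵐ v ∂ν, |v| ≤ K := hK0.mono fun v hv => hv.trans hKK0
    have hKpos : 0 ≤ K := by
      obtain ⟨v, hv⟩ := hKν.exists
      exact (abs_nonneg v).trans hv
    -- exhaustion
    obtain ⟨f, hf⟩ := exists_surjective_nat (Sd d)
    set Ex : ℕ → Finset (Sd d) := fun n => (Finset.range n).image f with hEx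
    have hExm : Monotone Ex := fun a b hab =>
      Finset.image_subset_image (Finset.range_mono hab)
    have hex : ∀ x, ∃ n, x ∈ Ex n := by
      intro x
      obtain ⟨n, hn⟩ := hf x
      exact ⟨n + 1, Finset.mem_image.2 ⟨n, Finset.mem_range.2 (Nat.lt_succ_self n), hn⟩⟩
    set A' : ℕ → Finset ℝ := fun k => (Finset.range (k + 1)).biUnion A with hA'
    have hA'mem : ∀ k j, j ≤ k → ∀ a ∈ A j, a ∈ A' k := fun k j hjk a ha =>
      Finset.mem_biUnion.2 ⟨j, Finset.mem_range.2 (Nat.lt_succ_of_le hjk), ha⟩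
    obtain ⟨R, hR⟩ := exists_rule (ν := ν) (d := d) (K := K) (base hKpos hKν hν) hS
      ((hiff K hKK0).mono fun V hV => hV.mono fun E hE => hE.1) hExm hex A' F
    refine ⟨fun l => R l.reverse, fun z hz => ?_⟩
    have hhist : ∀ k, ((List.range k).map z).reverse = hist z k := by
      intro k
      induction k with
      | zero => rfl
      | succ k ih =>
        rw [List.range_succ, List.map_append, List.reverse_append, ih]
        rfl
    obtain ⟨m, hgrow, hgood⟩ := hR z fun k => by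
      have h1 : z k ∉ R ((List.range k).map z).reverse := hz k
      rwa [hhist] at h1
    have hgood2 := Measure.ae_ae_of_ae_prod hgood
    -- membership in the modified sets
    have hLmem : ∀ k x, x ∈ LL F (hist z k) ↔ ∃ j < k, ∃ c ∈ F j, x = z j + c := by
      intro k
      induction k with
      | zero => intro x; simp [hist, LL]
      | succ k ih =>
        intro x
        rw [hist, LL, hist_length, Finset.mem_union, ih, Finset.mem_image]
        constructor
        · rintro (⟨j, hj, c, hc, hx⟩ | ⟨c, hc, hx⟩)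
          · exact ⟨j, by omega, c, hc, hx⟩
          · exact ⟨k, by omega, c, hc, hx.symm⟩
        · rintro ⟨j, hj, c, hc, hx⟩
          rcases Nat.lt_succ_iff_lt_or_eq.1 hj with h1 | h1
          · exact Or.inl ⟨j, h1, c, hc, hx⟩
          · subst h1
            exact Or.inr ⟨c, hc, hx.symm⟩
    filter_upwards [hgood2, hiff K hKK0, hbd] with V g1 g2 g3 W hW1 hW2
    have hWA : ∀ k, ∀ x ∈ LL F (hist z (k + 1)), W x ∈ A' k := by
      intro k x hx
      obtain ⟨j, hj, c, hc, rfl⟩ := (hLmem (k + 1) x).1 hx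
      exact hA'mem k j (by omega) _ (hW1 j c hc)
    have hoff : ∀ x, (∀ k, x ∉ LL F (hist z k)) → W x = V x := by
      intro x hx
      apply hW2
      intro k c hc hxe
      exact hx (k + 1) ((hLmem (k + 1) x).2 ⟨k, Nat.lt_succ_self k, c, hc, hxe⟩)
    have hWK : ∀ x, |W x| ≤ K := by
      intro x
      by_cases hx : ∃ k, ∃ c ∈ F k, x = z k + c
      · obtain ⟨k, c, hc, rfl⟩ := hx
        exact (hM k _ (hW1 k c hc)).trans (le_max_right _ _)
      · push Not at hx
        rw [hW2 x hx]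
        exact (g3 x).trans hKK0
    have hfin := det (K := K) (A := A') (S := S) (F := F) (z := z) (m := m) hExm hex hgrow
      (V := V) (W := W) (ac_mE.ae_le g1) (g2.mono fun E hE hES => by
        by_contra hcon
        exact hES (hE.2 hcon)) hWA hoff
    exact ⟨HV K W, isA_HV hWK, fun H' hH' => isA_unique (isA_HV hWK) hH',
      fun B hB => acs hfin hB⟩

end Pool.Agent.X187.IP
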