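import Pool.Agent.X187.IP.Circ

set_option autoImplicit false

/-! Convergence in probability of boundary values along far modifications of the potential. -/

open MeasureTheory Filter Topology Set
open scoped ENNReal NNReal Real
open Pool.Agent.TH980.IM Pool.Agent.TH980.IM.PR

namespace Pool.Agent.X187.IP

variable {d : ℕ}

/-- the joint law of the potential and the energy -/
noncomputable def QQ (d : ℕ) (ν : Measure ℝ) : Measure ((Sd d → ℝ) × ℝ) := (PP (Sd d) ν).prod mE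

instance (ν : Measure ℝ) [IsProbabilityMeasure ν] : IsProbabilityMeasure (QQ d ν) := by
  unfold QQ; infer_instance

theorem bd_meas_g (K : ℝ) (x y : Sd d) {g : (Sd d → ℝ) → Sd d → ℝ} (hg : Measurable g) :
    Measurable (fun q : (Sd d → ℝ) × ℝ => bd K (g q.1) q.2 x y) := by
  have h : Measurable (fun q : (Sd d → ℝ) × ℝ => (g q.1, q.2)) :=
    (hg.comp measurable_fst).prodMk measurable_snd
  have h2 := (bd_meas K x y).comp h
  simp only [Function.comp_def] at h2
  exact h2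

theorem ok_iff (K : ℝ) (V : Sd d → ℝ) (E : ℝ) : Ok K V E ↔
    ∀ x y, ∃ l, Tendsto (fun k => GG K V (zk k E) x y) atTop (𝓝 l) :=
  ⟨fun h x y => ⟨_, h x y⟩, fun h x y => tendsto_nhds_limUnder (h x y)⟩

theorem ok_set (K : ℝ) : MeasurableSet {q : (Sd d → ℝ) × ℝ | Ok K q.1 q.2} := by
  have e : {q : (Sd d → ℝ) × ℝ | Ok K q.1 q.2} =
      ⋂ x : Sd d, ⋂ y : Sd d, {q | ∃ l, Tendsto (fun k => GG K q.1 (zk k q.2) x y) atTop (𝓝 l)} := by
    ext q
    simp only [Set.mem_ofPred_eq, mem_iInter]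
    exact ok_iff K q.1 q.2
  rw [e]
  exact MeasurableSet.iInter fun x => MeasurableSet.iInter fun y =>
    measurableSet_exists_tendsto fun k => GG_meas K k x y

theorem ok_set_g (K : ℝ) {g : (Sd d → ℝ) → Sd d → ℝ} (hg : Measurable g) :
    MeasurableSet {q : (Sd d → ℝ) × ℝ | Ok K (g q.1) q.2} :=
  ((hg.comp measurable_fst).prodMk measurable_snd) (ok_set K)

variable (ν : Measure ℝ) [IsProbabilityMeasure ν]

theorem ok_Q (K : ℝ) {g : (Sd d → ℝ) → Sd d → ℝ} (hg : Measurable g) :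
    ∀ᵐ q ∂(QQ d ν), Ok K (g q.1) q.2 := by
  have h := (Measure.ae_prod_mem_iff_ae_ae_mem (μ := PP (Sd d) ν) (ν := mE) (ok_set_g K hg)).2
    (ae_of_all _ fun V => mE_ac.ae_le (ok_ae K (g V)))
  exact h

theorem tightQ (K : ℝ) (x y : Sd d) {g : (Sd d → ℝ) → Sd d → ℝ} (hg : Measurable g) :
    ∫⁻ q, ENNReal.ofReal (√‖bd K (g q.1) q.2 x y‖) ∂(QQ d ν) ≤ 12 := by
  have hm : Measurable (fun q : (Sd d → ℝ) × ℝ => ENNReal.ofReal (√‖bd K (g q.1) q.2 x y‖)) :=
    ENNReal.measurable_ofReal.comp (Real.continuous_sqrt.measurable.comp (bd_meas_g K x y hg).norm)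
  rw [QQ, lintegral_prod _ hm.aemeasurable]
  calc _ ≤ ∫⁻ _V, 12 ∂(PP (Sd d) ν) := lintegral_mono fun V => tight K (g V) x y
    _ = 12 := by simp

theorem tightQ' {ε : ℝ≥0∞} (hε : 0 < ε) : ∃ t : ℝ, 0 < t ∧ ∀ (g : (Sd d → ℝ) → Sd d → ℝ),
    Measurable g → ∀ (K : ℝ) (x y : Sd d), QQ d ν {q | t ≤ ‖bd K (g q.1) q.2 x y‖} ≤ ε := by
  obtain ⟨n, hn⟩ := ENNReal.exists_nat_gt (r := 12 / ε) (ENNReal.div_ne_top (by norm_num) hε.ne')
  have hn0 : (n : ℝ≥0∞) ≠ 0 := (lt_of_le_of_lt zero_le hn).ne'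
  have hn1 : 0 < n := Nat.pos_of_ne_zero (by exact_mod_cast hn0)
  have hn1' : (0 : ℝ) < n := by exact_mod_cast hn1
  refine ⟨(n : ℝ) ^ 2, by positivity, fun g hg K x y => ?_⟩
  have hm : Measurable (fun q : (Sd d → ℝ) × ℝ => ENNReal.ofReal (√‖bd K (g q.1) q.2 x y‖)) :=
    ENNReal.measurable_ofReal.comp (Real.continuous_sqrt.measurable.comp (bd_meas_g K x y hg).norm)
  have h1 := meas_ge_le_lintegral_div (μ := QQ d ν) hm.aemeasurable hn0 (ENNReal.natCast_ne_top n)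
  have h2 : {q : (Sd d → ℝ) × ℝ | (n : ℝ) ^ 2 ≤ ‖bd K (g q.1) q.2 x y‖} ⊆
      {q | (n : ℝ≥0∞) ≤ ENNReal.ofReal (√‖bd K (g q.1) q.2 x y‖)} := by
    intro q hq
    have h3 : (n : ℝ) ≤ √‖bd K (g q.1) q.2 x y‖ := Real.le_sqrt_of_sq_le hq
    have h4 := ENNReal.ofReal_le_ofReal h3
    rwa [ENNReal.ofReal_natCast] at h4
  refine (measure_mono h2).trans (h1.trans ?_)
  calc (∫⁻ q, ENNReal.ofReal (√‖bd K (g q.1) q.2 x y‖) ∂(QQ d ν)) / n ≤ 12 / n := by
        gcongr
        exact tightQ ν K x y hg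
    _ ≤ ε := by
        rcases eq_or_ne ε ∞ with he | he
        · rw [he]; exact le_top
        · apply ENNReal.div_le_of_le_mul
          have h5 := (ENNReal.div_le_iff hε.ne' he).1 hn.le
          rwa [mul_comm] at h5

/-- convergence to zero in probability along far sites -/
def TZ (f : Sd d → (Sd d → ℝ) × ℝ → ℂ) : Prop :=
  ∀ δ : ℝ, 0 < δ → Tendsto (fun z => QQ d ν {q | δ ≤ ‖f z q‖}) cofinite (𝓝 0)

variable {ν}

theorem TZ.comb {f g u v : Sd d → (Sd d → ℝ) × ℝ → ℂ} {C : ℝ} (hC : 0 ≤ C) (hf : TZ ν f)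
    (hg : TZ ν g)
    (hu : ∀ ε : ℝ≥0∞, 0 < ε → ∃ t : ℝ, 0 < t ∧ ∀ z, QQ d ν {q | t ≤ ‖u z q‖} ≤ ε)
    (hv : ∀ z, ∀ᵐ q ∂(QQ d ν), ‖v z q‖ ≤ ‖f z q‖ + C * ‖u z q‖ * ‖g z q‖) : TZ ν v := by
  intro δ hδ
  rw [ENNReal.tendsto_nhds_zero]
  intro ε hε
  have hε3 : 0 < ε / 3 := ENNReal.div_pos hε.ne' (by norm_num)
  obtain ⟨t, ht, hut⟩ := hu (ε / 3) hε3
  have h1 := (ENNReal.tendsto_nhds_zero.1 (hf (δ / 2) (by positivity))) (ε / 3) hε3
  have h2 := (ENNReal.tendsto_nhds_zero.1 (hg (δ / (2 * (C + 1) * t)) (by positivity))) (ε / 3) hε3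
  filter_upwards [h1, h2] with z e1 e2
  have hsub : ({q | δ ≤ ‖v z q‖} : Set ((Sd d → ℝ) × ℝ)) ≤ᵐ[QQ d ν]
      (({q | δ / 2 ≤ ‖f z q‖} ∪ {q | t ≤ ‖u z q‖} ∪ {q | δ / (2 * (C + 1) * t) ≤ ‖g z q‖} :
        Set ((Sd d → ℝ) × ℝ))) := by
    filter_upwards [hv z] with q hq hδ'
    by_contra hcon
    have hcon' : ¬ ((δ / 2 ≤ ‖f z q‖ ∨ t ≤ ‖u z q‖) ∨ δ / (2 * (C + 1) * t) ≤ ‖g z q‖) := hcon
    push Not at hcon'
    obtain ⟨⟨c1, c2⟩, c3⟩ := hcon'
    have hδ'' : δ ≤ ‖v z q‖ := hδ'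
    have c4 : C * ‖u z q‖ * ‖g z q‖ ≤ (C + 1) * t * (δ / (2 * (C + 1) * t)) := by
      have := norm_nonneg (u z q)
      have := norm_nonneg (g z q)
      gcongr
      linarith
    have c5 : (C + 1) * t * (δ / (2 * (C + 1) * t)) = δ / 2 := by
      field_simp
    linarith
  calc QQ d ν {q | δ ≤ ‖v z q‖} ≤ QQ d ν ({q | δ / 2 ≤ ‖f z q‖} ∪ {q | t ≤ ‖u z q‖} ∪
        {q | δ / (2 * (C + 1) * t) ≤ ‖g z q‖}) := measure_mono_ae hsub
    _ ≤ (QQ d ν {q | δ / 2 ≤ ‖f z q‖} + QQ d ν {q | t ≤ ‖u z q‖}) +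
        QQ d ν {q | δ / (2 * (C + 1) * t) ≤ ‖g z q‖} :=
        (measure_union_le _ _).trans (add_le_add (measure_union_le _ _) le_rfl)
    _ ≤ ε / 3 + ε / 3 + ε / 3 := add_le_add (add_le_add e1 (hut z)) e2
    _ = ε := ENNReal.add_thirds ε

theorem TZ.zero : TZ ν (fun (_ : Sd d) (_ : (Sd d → ℝ) × ℝ) => (0 : ℂ)) := by
  intro δ hδ
  have : {q : (Sd d → ℝ) × ℝ | δ ≤ ‖(0 : ℂ)‖} = ∅ := by
    ext q
    simp [hδ]
  simp only [this, measure_empty]
  exact tendsto_const_nhds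

/-- decay for the random potential itself -/
theorem base {K : ℝ} (hK0 : 0 ≤ K) (hK : ∀ᵐ v ∂ν, |v| ≤ K) (hν : ∀ r : ℝ, ν {r} ≠ 1)
    (x b : Sd d) : TZ ν (fun z q => bd K q.1 q.2 x (z + b)) := by
  obtain ⟨a', b', ε0, hε0, hab, ha, hb⟩ := two_points hν
  have hdec := lim_decay (d := d) hK0 hK hε0 hab ha hb (h := fun w q => bd K q.1 q.2 0 w)
    (fun w => bd_meas K 0 w) (fun w => by
      have h := (Measure.ae_prod_mem_iff_ae_ae_mem (μ := PP (Sd d) ν) (ν := (volume : Measure ℝ))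
        (ok_set K)).2 (ae_of_all _ fun V => ok_ae K V)
      filter_upwards [h] with q hq
      exact hq 0 w)
  intro δ hδ
  have hms : ∀ z : Sd d, MeasurableSet {q : (Sd d → ℝ) × ℝ | δ ≤ ‖bd K q.1 q.2 0 (z + b - x)‖} :=
    fun z => measurableSet_le measurable_const (bd_meas K 0 _).norm
  have e1 : ∀ z, QQ d ν {q | δ ≤ ‖bd K q.1 q.2 x (z + b)‖} =
      ∫⁻ E, PP (Sd d) ν {V | δ ≤ ‖bd K V E 0 (z + b - x)‖} ∂mE := by
    intro z
    rw [QQ, Measure.prod_apply_symm (measurableSet_le measurable_const (bd_meas K x (z + b)).norm)]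
    apply lintegral_congr
    intro E
    have e2 : (fun V => (V, E)) ⁻¹' {q : (Sd d → ℝ) × ℝ | δ ≤ ‖bd K q.1 q.2 x (z + b)‖} =
        sh x ⁻¹' {V | δ ≤ ‖bd K V E 0 (z + b - x)‖} := by
      ext V
      simp only [mem_preimage, Set.mem_ofPred_eq]
      rw [bd_shift K V E x (z + b)]
    rw [e2]
    apply (mp_sh ν x).measure_preimage
    exact (measurableSet_le measurable_const
      ((bd_meas K 0 (z + b - x)).comp (measurable_id.prodMk measurable_const)).norm).nullMeasurableSet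
  simp only [e1]
  have ht : Tendsto (fun z : Sd d => z + b - x) cofinite cofinite := by
    apply Function.Injective.tendsto_cofinite
    intro z z' h
    simpa using h
  have h0 : (0 : ℝ≥0∞) = ∫⁻ _E : ℝ, 0 ∂mE := by simp
  rw [h0]
  apply tendsto_lintegral_filter_of_dominated_convergence (fun _ => 1)
  · apply Eventually.of_forall
    intro z
    exact measurable_measure_prodMk_right (hms z)
  · apply Eventually.of_forall
    intro z
    exact ae_of_all _ fun E => prob_le_one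
  · simp
  · filter_upwards [mE_ac.ae_le hdec] with E hE
    exact (hE δ hδ).comp ht

theorem kap_le (K a v : ℝ) : ‖((cl K a - cl K v : ℝ) : ℂ)‖ ≤ 2 * |K| := by
  rw [Complex.norm_real, Real.norm_eq_abs]
  refine (abs_sub _ _).trans ?_
  have := cl_abs K a
  have := cl_abs K v
  linarith

/-- decay after a modification at finitely many fixed sites -/
theorem near {K : ℝ} (h0 : ∀ x b : Sd d, TZ ν (fun z q => bd K q.1 q.2 x (z + b)))
    (L : Finset (Sd d)) (a : Sd d → ℝ) :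
    ∀ x b : Sd d, TZ ν (fun z q => bd K (pt L a q.1) q.2 x (z + b)) := by
  induction L using Finset.induction_on with
  | empty =>
    intro x b
    simp only [pt_empty]
    exact h0 x b
  | insert p L hp ih =>
    intro x b
    refine TZ.comb (C := 2 * |K|) (by positivity) (ih x b) (ih p b)
      (u := fun _ q => bd K (pt (insert p L) a q.1) q.2 x p) (fun ε hε => ?_) (fun z => ?_)
    · obtain ⟨t, ht, h⟩ := tightQ' (d := d) ν hε
      exact ⟨t, ht, fun z => h _ (pt_meas _ _) K x p⟩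
    · filter_upwards [ok_Q ν K (pt_meas L a), ok_Q ν K (pt_meas (insert p L) a)] with q h1 h2
      rw [pt_insert] at h2 ⊢
      rw [K2 h1 h2 x (z + b)]
      refine (norm_sub_le _ _).trans ?_
      rw [norm_mul, norm_mul]
      have := kap_le K (a p) (pt L a q.1 p)
      gcongr

/-- the modification on a translated finite set -/
def fp (F : Finset (Sd d)) (β : Sd d → ℝ) (z : Sd d) (W : Sd d → ℝ) : Sd d → ℝ :=
  pt (F.image (fun c => z + c)) (fun x => β (x - z)) W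

theorem fp_empty (β : Sd d → ℝ) (z : Sd d) (W : Sd d → ℝ) : fp ∅ β z W = W := by
  unfold fp
  rw [Finset.image_empty, pt_empty]

theorem fp_insert (F : Finset (Sd d)) (c : Sd d) (β : Sd d → ℝ) (z : Sd d) (W : Sd d → ℝ) :
    fp (insert c F) β z W = Function.update (fp F β z W) (z + c) (β c) := by
  unfold fp
  rw [Finset.image_insert, pt_insert]
  congr 1
  rw [add_sub_cancel_left]

theorem fp_meas (F : Finset (Sd d)) (β : Sd d → ℝ) (z : Sd d) : Measurable (fp F β z) :=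
  pt_meas _ _

theorem far {K : ℝ} {g : (Sd d → ℝ) → Sd d → ℝ} (hg : Measurable g)
    (h0 : ∀ x b : Sd d, TZ ν (fun z q => bd K (g q.1) q.2 x (z + b)))
    (F : Finset (Sd d)) (β : Sd d → ℝ) :
    ∀ x b : Sd d, TZ ν (fun z q => bd K (fp F β z (g q.1)) q.2 x (z + b)) := by
  induction F using Finset.induction_on with
  | empty =>
    intro x b
    simp only [fp_empty]
    exact h0 x b
  | insert c F hc ih =>
    intro x b
    refine TZ.comb (C := 2 * |K|) (by positivity) (ih x b) (ih x c)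
      (u := fun z q => bd K (fp (insert c F) β z (g q.1)) q.2 (z + c) (z + b)) (fun ε hε => ?_)
      (fun z => ?_)
    · obtain ⟨t, ht, h⟩ := tightQ' (d := d) ν hε
      exact ⟨t, ht, fun z => h _ ((fp_meas _ _ z).comp hg) K _ _⟩
    · filter_upwards [ok_Q ν K ((fp_meas F β z).comp hg),
        ok_Q ν K ((fp_meas (insert c F) β z).comp hg)] with q h1 h2
      simp only [Function.comp_apply] at h1 h2
      rw [fp_insert] at h2 ⊢
      rw [K1 h1 h2 x (z + b)]
      refine (norm_sub_le _ _).trans ?_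
      rw [norm_mul, norm_mul]
      have := kap_le K (β c) (fp F β z (g q.1) (z + c))
      gcongr

/-- **Far modifications do not change the boundary values much.** -/
theorem diff {K : ℝ} {g : (Sd d → ℝ) → Sd d → ℝ} (hg : Measurable g)
    (h0 : ∀ x b : Sd d, TZ ν (fun z q => bd K (g q.1) q.2 x (z + b)))
    (F : Finset (Sd d)) (β : Sd d → ℝ) (x y : Sd d) :
    TZ ν (fun z q => bd K (fp F β z (g q.1)) q.2 x y - bd K (g q.1) q.2 x y) := by
  induction F using Finset.induction_on with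
  | empty =>
    simp only [fp_empty, sub_self]
    exact TZ.zero
  | insert c F hc ih =>
    refine TZ.comb (C := 2 * |K|) (by positivity) ih (far hg h0 F β x c)
      (u := fun z q => bd K (fp (insert c F) β z (g q.1)) q.2 (z + c) y) (fun ε hε => ?_)
      (fun z => ?_)
    · obtain ⟨t, ht, h⟩ := tightQ' (d := d) ν hε
      exact ⟨t, ht, fun z => h _ ((fp_meas _ _ z).comp hg) K _ _⟩
    · filter_upwards [ok_Q ν K ((fp_meas F β z).comp hg),
        ok_Q ν K ((fp_meas (insert c F) β z).comp hg)] with q h1 h2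
      simp only [Function.comp_apply] at h1 h2
      rw [fp_insert] at h2 ⊢
      rw [K1 h1 h2 x y]
      have e : bd K (fp F β z (g q.1)) q.2 x y - ((cl K (β c) - cl K (fp F β z (g q.1) (z + c)) :
          ℝ) : ℂ) * bd K (Function.update (fp F β z (g q.1)) (z + c) (β c)) q.2 (z + c) y *
          bd K (fp F β z (g q.1)) q.2 x (z + c) - bd K (g q.1) q.2 x y =
          (bd K (fp F β z (g q.1)) q.2 x y - bd K (g q.1) q.2 x y) -
          ((cl K (β c) - cl K (fp F β z (g q.1) (z + c)) :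
          ℝ) : ℂ) * bd K (Function.update (fp F β z (g q.1)) (z + c) (β c)) q.2 (z + c) y *
          bd K (fp F β z (g q.1)) q.2 x (z + c) := by ring
      rw [e]
      refine (norm_sub_le _ _).trans ?_
      rw [norm_mul, norm_mul]
      have := kap_le K (β c) (fp F β z (g q.1) (z + c))
      gcongr

end Pool.Agent.X187.IP
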