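import Pool.Agent.X187.IP.Pr

set_option autoImplicit false

/-! The recursive choice of the translates. -/

open MeasureTheory Filter Topology Set
open scoped ENNReal NNReal Real
open Pool.Agent.TH980.IM Pool.Agent.TH980.IM.PR

namespace Pool.Agent.X187.IP

variable {d : ℕ}

open Classical in
/-- assignments of values in `A` on `L`, zero outside -/
noncomputable def AV (A : Finset ℝ) (L : Finset (Sd d)) : Finset (Sd d → ℝ) :=
  Finset.univ.image (fun (g : L → A) (x : Sd d) => if h : x ∈ L then ((g ⟨x, h⟩ : A) : ℝ) else 0)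

theorem AV_ex {A : Finset ℝ} {L : Finset (Sd d)} {a : Sd d → ℝ} (h : ∀ x ∈ L, a x ∈ A) :
    ∃ a' ∈ AV A L, ∀ x ∈ L, a' x = a x := by
  classical
  refine ⟨fun x => if h : x ∈ L then a x else 0, ?_, fun x hx => by simp [hx]⟩
  unfold AV
  rw [Finset.mem_image]
  exact ⟨fun x => ⟨a x, h x x.2⟩, Finset.mem_univ _, rfl⟩

theorem pt_congr {L : Finset (Sd d)} {a a' : Sd d → ℝ} (h : ∀ x ∈ L, a x = a' x) (V : Sd d → ℝ) :
    pt L a V = pt L a' V := by
  funext x
  unfold pt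
  split_ifs with hx
  · exact h x hx
  · rfl

theorem pt_union (L F : Finset (Sd d)) (z : Sd d) (a V : Sd d → ℝ) :
    pt (L ∪ F.image (fun c => z + c)) a V = fp F (fun c => a (z + c)) z (pt L a V) := by
  funext x
  unfold fp pt
  by_cases h : x ∈ F.image (fun c => z + c)
  · rw [if_pos (Finset.mem_union_right _ h), if_pos h]
    simp only [add_sub_cancel]
  · rw [if_neg h]
    by_cases h2 : x ∈ L
    · rw [if_pos (Finset.mem_union_left _ h2), if_pos h2]
    · rw [if_neg (fun h3 => (Finset.mem_union.1 h3).elim h2 h), if_neg h2]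

variable {ν : Measure ℝ} [IsProbabilityMeasure ν]

/-- bad event: some modification on the new translate moves the boundary values -/
def Er (K : ℝ) (A : Finset ℝ) (L F B : Finset (Sd d)) (ε : ℝ) (z : Sd d) : Set ((Sd d → ℝ) × ℝ) :=
  {q | ∃ a : Sd d → ℝ, (∀ x ∈ L ∪ F.image (fun c => z + c), a x ∈ A) ∧ ∃ x ∈ B,
    ε ≤ ‖bd K (pt (L ∪ F.image (fun c => z + c)) a q.1) q.2 x x - bd K (pt L a q.1) q.2 x x‖}

/-- bad event: some modification has small imaginary parts -/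
def Po (K : ℝ) (A : Finset ℝ) (S : Set ℝ) (L B : Finset (Sd d)) (ε : ℝ) :
    Set ((Sd d → ℝ) × ℝ) :=
  {q | q.2 ∈ S ∧ ∃ a : Sd d → ℝ, (∀ x ∈ L, a x ∈ A) ∧ ∀ x ∈ B,
    (bd K (pt L a q.1) q.2 x x).im < ε}

theorem step_err {K : ℝ} (h0 : ∀ x b : Sd d, TZ ν (fun z q => bd K q.1 q.2 x (z + b)))
    (A : Finset ℝ) (L F B : Finset (Sd d)) {ε : ℝ} (hε : 0 < ε) {η : ℝ≥0∞} (hη : 0 < η) :
    ∀ᶠ z in cofinite, QQ d ν (Er K A L F B ε z) ≤ η := by
  set U : (Sd d → ℝ) → (Sd d → ℝ) → Sd d → Sd d → Set ((Sd d → ℝ) × ℝ) := fun α β x z =>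
    {q | ε ≤ ‖bd K (fp F β z (pt L α q.1)) q.2 x x - bd K (pt L α q.1) q.2 x x‖} with hU
  have h1 : ∀ α β x, Tendsto (fun z => QQ d ν (U α β x z)) cofinite (𝓝 0) := fun α β x =>
    diff (pt_meas L α) (near h0 L α) F β x x ε hε
  have h2 : Tendsto (fun z => ∑ α ∈ AV A L, ∑ β ∈ AV A F, ∑ x ∈ B, QQ d ν (U α β x z)) cofinite
      (𝓝 (∑ _α ∈ AV A L, ∑ _β ∈ AV A F, ∑ _x ∈ B, 0)) :=
    tendsto_finsetSum _ fun α _ => tendsto_finsetSum _ fun β _ => tendsto_finsetSum _ fun x _ =>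
      h1 α β x
  simp only [Finset.sum_const_zero] at h2
  filter_upwards [ENNReal.tendsto_nhds_zero.1 h2 η hη] with z hz
  refine le_trans ?_ hz
  have hsub : Er K A L F B ε z ⊆ ⋃ α ∈ AV A L, ⋃ β ∈ AV A F, ⋃ x ∈ B, U α β x z := by
    rintro q ⟨a, ha, x, hx, hq⟩
    obtain ⟨α, hα, hαa⟩ := AV_ex (A := A) (L := L) (a := a) fun x hx =>
      ha x (Finset.mem_union_left _ hx)
    obtain ⟨β, hβ, hβa⟩ := AV_ex (A := A) (L := F) (a := fun c => a (z + c)) fun c hc =>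
      ha _ (Finset.mem_union_right _ (Finset.mem_image_of_mem _ hc))
    simp only [mem_iUnion]
    refine ⟨α, hα, β, hβ, x, hx, ?_⟩
    rw [pt_union, ← pt_congr hαa] at hq
    have e : fp F (fun c => a (z + c)) z (pt L α q.1) = fp F β z (pt L α q.1) := by
      unfold fp
      apply pt_congr
      intro y hy
      obtain ⟨c, hc, rfl⟩ := Finset.mem_image.1 hy
      simp only [add_sub_cancel_left]
      exact (hβa c hc).symm
    rw [e] at hq
    exact hq
  calc QQ d ν (Er K A L F B ε z) ≤ QQ d ν (⋃ α ∈ AV A L, ⋃ β ∈ AV A F, ⋃ x ∈ B, U α β x z) :=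
        measure_mono hsub
    _ ≤ ∑ α ∈ AV A L, QQ d ν (⋃ β ∈ AV A F, ⋃ x ∈ B, U α β x z) := measure_biUnion_finset_le _ _
    _ ≤ ∑ α ∈ AV A L, ∑ β ∈ AV A F, ∑ x ∈ B, QQ d ν (U α β x z) :=
        Finset.sum_le_sum fun α _ => (measure_biUnion_finset_le _ _).trans
          (Finset.sum_le_sum fun β _ => measure_biUnion_finset_le _ _)

theorem re_set (K : ℝ) {g : (Sd d → ℝ) → Sd d → ℝ} (hg : Measurable g) :
    MeasurableSet {q : (Sd d → ℝ) × ℝ | Re0 K (g q.1) q.2} := by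
  have e : {q : (Sd d → ℝ) × ℝ | Re0 K (g q.1) q.2} =
      ⋂ x : Sd d, {q | (bd K (g q.1) q.2 x x).im = 0} := by
    ext q
    simp only [Set.mem_ofPred_eq, mem_iInter]
    rfl
  rw [e]
  exact MeasurableSet.iInter fun x =>
    (Complex.measurable_im.comp (bd_meas_g K x x hg)) (measurableSet_singleton 0)

theorem step_pos {K : ℝ} {S : Set ℝ} (hS : MeasurableSet S)
    (hpos : ∀ᵐ V ∂(PP (Sd d) ν), ∀ᵐ E : ℝ, E ∈ S → ¬ Re0 K V E)
    {Ex : ℕ → Finset (Sd d)} (hm : Monotone Ex) (hex : ∀ x, ∃ n, x ∈ Ex n)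
    (A : Finset ℝ) (L : Finset (Sd d)) {η : ℝ≥0∞} (hη : 0 < η) :
    ∀ᶠ n : ℕ in atTop, QQ d ν (Po K A S L (Ex n) (1 / ((n : ℝ) + 1))) ≤ η := by
  set U : (Sd d → ℝ) → ℕ → Set ((Sd d → ℝ) × ℝ) := fun α n =>
    {q | Ok K (pt L α q.1) q.2} ∩ (Prod.snd ⁻¹' S ∩
      ⋂ x ∈ Ex n, {q | (bd K (pt L α q.1) q.2 x x).im < 1 / ((n : ℝ) + 1)}) with hU
  have hUm : ∀ α n, MeasurableSet (U α n) := fun α n =>
    (ok_set_g K (pt_meas L α)).inter ((measurable_snd hS).inter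
      (Finset.measurableSet_biInter _ fun x _ => measurableSet_lt
        (Complex.measurable_im.comp (bd_meas_g K x x (pt_meas L α))) measurable_const))
  have hanti : ∀ α, Antitone (U α) := by
    intro α n m hnm q hq
    refine ⟨hq.1, hq.2.1, ?_⟩
    have h1 := hq.2.2
    simp only [mem_iInter, Set.mem_ofPred_eq] at h1 ⊢
    intro x hx
    refine (h1 x (hm hnm hx)).trans_le ?_
    apply one_div_le_one_div_of_le (by positivity)
    have : (n : ℝ) ≤ m := by exact_mod_cast hnm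
    linarith
  have hposα : ∀ α, ∀ᵐ q ∂(QQ d ν), q.2 ∈ S → ¬ Re0 K (pt L α q.1) q.2 := by
    intro α
    have hM : MeasurableSet {q : (Sd d → ℝ) × ℝ | q.2 ∈ S → ¬ Re0 K (pt L α q.1) q.2} := by
      have e : {q : (Sd d → ℝ) × ℝ | q.2 ∈ S → ¬ Re0 K (pt L α q.1) q.2} =
          (Prod.snd ⁻¹' S)ᶜ ∪ {q | Re0 K (pt L α q.1) q.2}ᶜ := by
        ext q
        simp only [Set.mem_ofPred_eq, mem_union, mem_compl_iff, mem_preimage]
        tauto
      rw [e]
      exact (measurable_snd hS).compl.union (re_set K (pt_meas L α)).compl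
    refine (Measure.ae_prod_mem_iff_ae_ae_mem (μ := PP (Sd d) ν) (ν := mE) hM).2 ?_
    filter_upwards [hpos] with V hV
    apply mE_ac.ae_le
    filter_upwards [hV, re_pt K L α V] with E h1 h2 h3 h4
    exact h1 h3 (h2.2 h4)
  have hlim : ∀ α, Tendsto (fun n => QQ d ν (U α n)) atTop (𝓝 0) := by
    intro α
    have h1 := tendsto_measure_iInter_atTop (μ := QQ d ν) (s := U α)
      (fun n => (hUm α n).nullMeasurableSet) (hanti α) ⟨0, measure_ne_top _ _⟩
    have h2 : QQ d ν (⋂ n, U α n) = 0 := by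
      rw [measure_eq_zero_iff_ae_notMem]
      filter_upwards [hposα α] with q hq hq2
      rw [mem_iInter] at hq2
      apply hq (hq2 0).2.1
      intro x
      apply le_antisymm _ (bd_im_nonneg (hq2 0).1 x)
      by_contra hcon
      push Not at hcon
      obtain ⟨n, hn⟩ := exists_nat_one_div_lt hcon
      obtain ⟨n0, hn0⟩ := hex x
      have h3 := (hq2 (max n n0)).2.2
      simp only [mem_iInter, Set.mem_ofPred_eq] at h3
      have h4 := h3 x (hm (le_max_right _ _) hn0)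
      have h5 : 1 / (((max n n0 : ℕ) : ℝ) + 1) ≤ 1 / ((n : ℝ) + 1) := by
        apply one_div_le_one_div_of_le (by positivity)
        have : (n : ℝ) ≤ ((max n n0 : ℕ) : ℝ) := by exact_mod_cast le_max_left n n0
        linarith
      linarith
    rw [h2] at h1
    exact h1
  have hsum : Tendsto (fun n => ∑ α ∈ AV A L, QQ d ν (U α n)) atTop (𝓝 (∑ _α ∈ AV A L, 0)) :=
    tendsto_finsetSum _ fun α _ => hlim α
  simp only [Finset.sum_const_zero] at hsum
  filter_upwards [ENNReal.tendsto_nhds_zero.1 hsum η hη] with n hn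
  refine le_trans ?_ hn
  have hok : ∀ᵐ q ∂(QQ d ν), ∀ α ∈ AV A L, Ok K (pt L α q.1) q.2 :=
    (ae_ball_iff (AV A L).countable_toSet).2 fun α _ => ok_Q ν K (pt_meas L α)
  have hsub : (Po K A S L (Ex n) (1 / ((n : ℝ) + 1)) : Set ((Sd d → ℝ) × ℝ)) ≤ᵐ[QQ d ν]
      (⋃ α ∈ AV A L, U α n : Set ((Sd d → ℝ) × ℝ)) := by
    filter_upwards [hok] with q hq hq2
    obtain ⟨hqS, a, ha, hx⟩ := hq2
    obtain ⟨α, hα, hαa⟩ := AV_ex ha
    have h3 : q ∈ ⋃ α ∈ AV A L, U α n := by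
      simp only [mem_iUnion]
      refine ⟨α, hα, hq α hα, hqS, ?_⟩
      simp only [mem_iInter, Set.mem_ofPred_eq]
      intro x hxn
      rw [pt_congr hαa]
      exact hx x hxn
    exact h3
  exact (measure_mono_ae hsub).trans (measure_biUnion_finset_le _ _)

/-- sites modified after choosing the translates in the list (last chosen first) -/
def LL (F : ℕ → Finset (Sd d)) : List (Sd d) → Finset (Sd d)
  | [] => ∅
  | z :: l => LL F l ∪ (F l.length).image (fun c => z + c)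

/-- the list of the first `k` members, last first -/
def hist (z : ℕ → Sd d) : ℕ → List (Sd d)
  | 0 => []
  | k + 1 => z k :: hist z k

theorem hist_length (z : ℕ → Sd d) (k : ℕ) : (hist z k).length = k := by
  induction k with
  | zero => rfl
  | succ k ih => rw [hist, List.length_cons, ih]

/-- **The recursion.** -/
theorem exists_rule {K : ℝ} (h0 : ∀ x b : Sd d, TZ ν (fun z q => bd K q.1 q.2 x (z + b)))
    {S : Set ℝ} (hS : MeasurableSet S)
    (hpos : ∀ᵐ V ∂(PP (Sd d) ν), ∀ᵐ E : ℝ, E ∈ S → ¬ Re0 K V E)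
    {Ex : ℕ → Finset (Sd d)} (hm : Monotone Ex) (hex : ∀ x, ∃ n, x ∈ Ex n)
    (A : ℕ → Finset ℝ) (F : ℕ → Finset (Sd d)) :
    ∃ R : List (Sd d) → Finset (Sd d), ∀ z : ℕ → Sd d, (∀ k, z k ∉ R (hist z k)) →
      ∃ m : ℕ → ℕ, (∀ k, 2 * m k + 1 ≤ m (k + 1)) ∧ ∀ᵐ q ∂(QQ d ν), ∀ᶠ k in atTop,
        q ∉ Er K (A k) (LL F (hist z k)) (F k) (Ex (m k)) (1 / (4 * ((m k : ℝ) + 1))) (z k) ∧
        q ∉ Po K (A k) S (LL F (hist z k)) (Ex (m k)) (1 / ((m k : ℝ) + 1)) := by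
  classical
  have hhalf : ∀ k : ℕ, (0 : ℝ≥0∞) < (2 : ℝ≥0∞)⁻¹ ^ k := fun k =>
    ENNReal.pow_pos (ENNReal.inv_pos.2 (by norm_num)) k
  have hch : ∀ (L : Finset (Sd d)) (m k : ℕ), ∃ n : ℕ, m ≤ n ∧
      QQ d ν (Po K (A k) S L (Ex n) (1 / ((n : ℝ) + 1))) ≤ (2 : ℝ≥0∞)⁻¹ ^ k := by
    intro L m k
    obtain ⟨n, h1, h2⟩ := ((eventually_ge_atTop m).and
      (step_pos hS hpos hm hex (A k) L (hhalf k))).exists
    exact ⟨n, h1, h2⟩
  choose c hc1 hc2 using hch
  set N : List (Sd d) → ℕ := fun l => List.rec (c ∅ 0 0)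
    (fun z l n => c (LL F (z :: l)) (2 * n + 1) (l.length + 1)) l with hN
  have hN0 : N [] = c ∅ 0 0 := rfl
  have hN1 : ∀ z l, N (z :: l) = c (LL F (z :: l)) (2 * N l + 1) (l.length + 1) := fun z l => rfl
  have hNpo : ∀ l, QQ d ν (Po K (A l.length) S (LL F l) (Ex (N l)) (1 / ((N l : ℝ) + 1))) ≤
      (2 : ℝ≥0∞)⁻¹ ^ l.length := by
    intro l
    cases l with
    | nil => rw [hN0]; exact hc2 ∅ 0 0
    | cons z l => rw [hN1]; exact hc2 (LL F (z :: l)) (2 * N l + 1) (l.length + 1)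
  have hfin : ∀ l : List (Sd d), {z : Sd d | ¬ QQ d ν (Er K (A l.length) (LL F l) (F l.length) (Ex (N l))
      (1 / (4 * ((N l : ℝ) + 1))) z) ≤ (2 : ℝ≥0∞)⁻¹ ^ l.length}.Finite := fun l =>
    Filter.eventually_cofinite.1 (step_err h0 (A l.length) (LL F l) (F l.length) (Ex (N l))
      (by positivity) (hhalf l.length))
  refine ⟨fun l => (hfin l).toFinset, fun z hz => ⟨fun k => N (hist z k), fun k => ?_, ?_⟩⟩
  · show 2 * N (hist z k) + 1 ≤ N (z k :: hist z k)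
    rw [hN1]
    exact hc1 _ _ _
  · have hgeo : ∑' k : ℕ, (2 : ℝ≥0∞)⁻¹ ^ k ≠ ∞ := by
      rw [ENNReal.tsum_geometric]
      simp
    have e1 : ∀ᵐ q ∂(QQ d ν), ∀ᶠ k in atTop, q ∉ Er K (A k) (LL F (hist z k)) (F k)
        (Ex (N (hist z k))) (1 / (4 * ((N (hist z k) : ℝ) + 1))) (z k) := by
      apply ae_eventually_notMem
      refine ne_top_of_le_ne_top hgeo (ENNReal.tsum_le_tsum fun k => ?_)
      have h1 := hz k
      rw [Set.Finite.mem_toFinset] at h1
      simp only [Set.mem_ofPred_eq, not_not, hist_length] at h1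
      exact h1
    have e2 : ∀ᵐ q ∂(QQ d ν), ∀ᶠ k in atTop, q ∉ Po K (A k) S (LL F (hist z k))
        (Ex (N (hist z k))) (1 / ((N (hist z k) : ℝ) + 1)) := by
      apply ae_eventually_notMem
      refine ne_top_of_le_ne_top hgeo (ENNReal.tsum_le_tsum fun k => ?_)
      have h1 := hNpo (hist z k)
      rw [hist_length] at h1
      exact h1
    filter_upwards [e1, e2] with q h1 h2
    exact h1.and h2

end Pool.Agent.X187.IP
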